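import Mathlib

set_option autoImplicit false

namespace Pool.Agent.Helper199.CubicLines

open MvPolynomial

/-- A form of degree `d` in `d` variables with integer coefficients, anisotropic modulo `p`. -/
theorem exists_norm_form (p : ℕ) [hp : Fact p.Prime] (d : ℕ) (hd : d ≠ 0) :
    ∃ N : MvPolynomial (Fin d) ℤ, N.IsHomogeneous d ∧
      ∀ (R : Type) [CommRing R] (f : R →+* ZMod p) (x : Fin d → R),
        f (aeval x N) = 0 → ∀ i, f (x i) = 0 := by
  have hfr : Module.finrank (ZMod p) (GaloisField p d) = d := GaloisField.finrank p hd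
  let b := Module.finBasisOfFinrankEq (ZMod p) (GaloisField p d) hfr
  let Mat : Fin d → Matrix (Fin d) (Fin d) (ZMod p) := fun t => Algebra.leftMulMatrix b (b t)
  let L : Fin d → Matrix (Fin d) (Fin d) ℤ := fun t => (Mat t).map (fun a => (a.val : ℤ))
  let P : Matrix (Fin d) (Fin d) (MvPolynomial (Fin d) ℤ) :=
    fun i j => ∑ t, C (L t i j) * X t
  refine ⟨P.det, ?_, ?_⟩
  · have h1 : ∀ i j, (P i j).IsHomogeneous 1 := by
      intro i j
      apply IsHomogeneous.sum
      intro t _
      simpa using (isHomogeneous_C (Fin d) (L t i j)).mul (isHomogeneous_X ℤ t)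
    rw [Matrix.det_apply]
    apply IsHomogeneous.sum
    intro s _
    have h2 := IsHomogeneous.prod Finset.univ (fun i => P (s i) i) (fun _ => 1)
      (fun i _ => h1 _ _)
    have h3 : (∏ i, P (s i) i).IsHomogeneous d := by simpa using h2
    rcases Int.units_eq_one_or (Equiv.Perm.sign s) with h | h
    · rw [h, one_smul]; exact h3
    · rw [h]
      have : (-1 : ℤˣ) • ∏ i, P (s i) i = -∏ i, P (s i) i := by
        rw [Units.neg_smul, one_smul]
      rw [this]
      exact h3.neg
  · intro R _ f x hx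
    have h1 : f (aeval x P.det) = (∑ t, f (x t) • Mat t).det := by
      have e1 : (aeval x : MvPolynomial (Fin d) ℤ →ₐ[ℤ] R) P.det =
          (aeval x : MvPolynomial (Fin d) ℤ →ₐ[ℤ] R).toRingHom P.det := rfl
      rw [e1, RingHom.map_det, RingHom.map_det]
      congr 1
      ext i j
      change f (aeval x (∑ t, C (L t i j) * X t)) = _
      rw [map_sum, map_sum, Matrix.sum_apply]
      apply Finset.sum_congr rfl
      intro t _
      rw [map_mul, aeval_X, aeval_C, map_mul, Matrix.smul_apply, smul_eq_mul, mul_comm]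
      congr 1
      simp [L, Mat]
    have h2 : (∑ t, f (x t) • Mat t) = Algebra.leftMulMatrix b (∑ t, f (x t) • b t) := by
      rw [map_sum]
      apply Finset.sum_congr rfl
      intro t _
      rw [map_smul]
    rw [h1, h2, ← Algebra.norm_eq_matrix_det b, Algebra.norm_eq_zero_iff] at hx
    exact Fintype.linearIndependent_iff.1 b.linearIndependent _ hx

theorem aeval_mul_const {ι R : Type} [Fintype ι] [CommRing R] {d : ℕ} {F : MvPolynomial ι ℤ}
    (hF : F.IsHomogeneous d) (a : R) (x : ι → R) :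
    aeval (fun i => a * x i) F = a ^ d * aeval x F := by
  rw [aeval_def, aeval_def, eval₂_eq', eval₂_eq', Finset.mul_sum]
  apply Finset.sum_congr rfl
  intro s hs
  have h1 : ∑ i, s i = d := by
    have h := hF (mem_support_iff.1 hs)
    have e : Finsupp.degree s = d := by
      rw [Finsupp.degree_eq_weight_one]
      exact h
    rw [← e, Finsupp.degree_eq_sum]
  have h2 : ∏ i, (a * x i) ^ s i = a ^ d * ∏ i, x i ^ s i := by
    rw [← h1, ← Finset.prod_pow_eq_pow_sum, ← Finset.prod_mul_distrib]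
    apply Finset.prod_congr rfl
    intro i _
    rw [mul_pow]
  rw [h2]
  ring

/-- `F` is a form of degree `d` whose value at a `p`-adic integer point is divisible by `p ^ k` only
if all coordinates are divisible by `p`. -/
def AnisoP (p : ℕ) [Fact p.Prime] {ι : Type} (d k : ℕ) (F : MvPolynomial ι ℤ) : Prop :=
  F.IsHomogeneous d ∧ ∀ x : ι → ℤ_[p], (p : ℤ_[p]) ^ k ∣ aeval x F → ∀ i, (p : ℤ_[p]) ∣ x i

theorem anisoP_norm (p : ℕ) [hp : Fact p.Prime] (d : ℕ) (hd : d ≠ 0) :
    ∃ N : MvPolynomial (Fin d) ℤ, AnisoP p d 1 N := by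
  obtain ⟨N, hN, hN'⟩ := exists_norm_form p d hd
  refine ⟨N, hN, ?_⟩
  intro x hx
  have key : ∀ z : ℤ_[p], PadicInt.toZMod z = 0 ↔ (p : ℤ_[p]) ∣ z := by
    intro z
    have h1 : z ∈ RingHom.ker (PadicInt.toZMod (p := p)) ↔ PadicInt.toZMod z = 0 :=
      RingHom.mem_ker
    rw [← h1, PadicInt.ker_toZMod, PadicInt.maximalIdeal_eq_span_p, Ideal.mem_span_singleton]
  intro i
  rw [← key]
  apply hN' ℤ_[p] PadicInt.toZMod x
  rw [key]
  simpa using hx

theorem AnisoP.add {p : ℕ} [hp : Fact p.Prime] {ι κ : Type} [Fintype ι] [Fintype κ] {d k l : ℕ}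
    {F : MvPolynomial ι ℤ} {H : MvPolynomial κ ℤ} (h1 : AnisoP p d k F) (h2 : AnisoP p d l H)
    (hkl : k + l ≤ d) : AnisoP p d (k + l)
      (rename Sum.inl F + C ((p : ℤ) ^ k) * rename Sum.inr H : MvPolynomial (ι ⊕ κ) ℤ) := by
  obtain ⟨hF, hF'⟩ := h1
  obtain ⟨hH, hH'⟩ := h2
  have hp0 : (p : ℤ_[p]) ≠ 0 := by exact_mod_cast hp.out.ne_zero
  constructor
  · apply IsHomogeneous.add
    · exact hF.rename_isHomogeneous
    · have := (isHomogeneous_C (ι ⊕ κ) ((p : ℤ) ^ k)).mul
        (hH.rename_isHomogeneous (f := (Sum.inr : κ → ι ⊕ κ)))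
      simpa using this
  · intro x hx
    have hval : aeval x (rename Sum.inl F + C ((p : ℤ) ^ k) * rename Sum.inr H :
        MvPolynomial (ι ⊕ κ) ℤ) =
        aeval (x ∘ Sum.inl) F + (p : ℤ_[p]) ^ k * aeval (x ∘ Sum.inr) H := by
      rw [map_add, map_mul, aeval_C, aeval_rename, aeval_rename]
      simp
    rw [hval] at hx
    have a1 : ∀ i, (p : ℤ_[p]) ∣ (x ∘ Sum.inl) i := by
      apply hF'
      have b1 : (p : ℤ_[p]) ^ k ∣ p ^ (k + l) := pow_dvd_pow _ (by omega)
      exact (dvd_add_left (Dvd.intro _ rfl)).1 (dvd_trans b1 hx)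
    have a2 : (p : ℤ_[p]) ^ (k + l) ∣ aeval (x ∘ Sum.inl) F := by
      choose y hy using a1
      have h : x ∘ Sum.inl = fun i => (p : ℤ_[p]) * y i := funext hy
      rw [h, aeval_mul_const hF]
      exact Dvd.dvd.mul_right (pow_dvd_pow _ hkl) _
    have a3 : (p : ℤ_[p]) ^ (k + l) ∣ p ^ k * aeval (x ∘ Sum.inr) H := (dvd_add_right a2).1 hx
    have a4 : (p : ℤ_[p]) ^ l ∣ aeval (x ∘ Sum.inr) H := by
      rw [pow_add] at a3
      exact (mul_dvd_mul_iff_left (pow_ne_zero _ hp0)).1 a3
    have a5 := hH' _ a4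
    rintro (i | i)
    · exact a1 i
    · exact a5 i

/-- An integral cubic form in nine variables with no nontrivial zero over the `p`-adic numbers. -/
theorem exists_aniso9 (p : ℕ) [hp : Fact p.Prime] :
    ∃ A : MvPolynomial (Fin 9) ℤ, A.IsHomogeneous 3 ∧
      ∀ x : Fin 9 → ℚ_[p], aeval x A = 0 → x = 0 := by
  obtain ⟨N, hN⟩ := anisoP_norm p 3 (by norm_num)
  have h2 := hN.add hN (by norm_num)
  have h3 := h2.add hN (by norm_num)
  let e : (Fin 3 ⊕ Fin 3) ⊕ Fin 3 ≃ Fin 9 :=
    ((Equiv.sumCongr finSumFinEquiv (Equiv.refl _)).trans finSumFinEquiv)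
  generalize hB : (rename Sum.inl (rename Sum.inl N + C ((p : ℤ) ^ 1) * rename Sum.inr N :
    MvPolynomial (Fin 3 ⊕ Fin 3) ℤ) + C ((p : ℤ) ^ (1 + 1)) * rename Sum.inr N :
    MvPolynomial ((Fin 3 ⊕ Fin 3) ⊕ Fin 3) ℤ) = B at h3
  refine ⟨rename e B, h3.1.rename_isHomogeneous, ?_⟩
  intro x hx
  by_contra hne
  rw [aeval_rename] at hx
  -- a coordinate of maximal absolute value
  obtain ⟨i0, _, hi0⟩ := Finset.exists_max_image Finset.univ (fun i => ‖x i‖) ⟨0, Finset.mem_univ _⟩
  have hx0 : x i0 ≠ 0 := by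
    intro h
    apply hne
    funext i
    have := hi0 i (Finset.mem_univ i)
    rw [h, norm_zero] at this
    exact norm_le_zero_iff.1 this
  have hle : ∀ i, ‖(x i0)⁻¹ * x i‖ ≤ 1 := by
    intro i
    rw [norm_mul, norm_inv]
    have := hi0 i (Finset.mem_univ i)
    rw [inv_mul_le_iff₀ (norm_pos_iff.2 hx0), mul_one]
    exact this
  let z : (Fin 3 ⊕ Fin 3) ⊕ Fin 3 → ℤ_[p] := fun i => ⟨(x i0)⁻¹ * x (e i), hle _⟩
  have hz : aeval z B = 0 := by
    have h4 : ((aeval z B : ℤ_[p]) : ℚ_[p]) = aeval (fun i => (x i0)⁻¹ * x (e i)) B := by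
      have h5 := map_aeval (R := ℤ) z (PadicInt.Coe.ringHom (p := p)) B
      have h6 : (PadicInt.Coe.ringHom (p := p)).comp (algebraMap ℤ ℤ_[p]) = algebraMap ℤ ℚ_[p] :=
        RingHom.ext_int _ _
      rw [h6] at h5
      exact h5
    have h7 : aeval (fun i => (x i0)⁻¹ * x (e i)) B = 0 := by
      rw [aeval_mul_const h3.1]
      have : aeval (fun i => x (e i)) B = 0 := hx
      rw [this, mul_zero]
    rw [h7] at h4
    exact Subtype.ext h4
  have h8 := h3.2 z (by rw [hz]; exact dvd_zero _) (e.symm i0)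
  have h9 : z (e.symm i0) = 1 := by
    apply Subtype.ext
    simp only [z, Equiv.apply_symm_apply]
    exact inv_mul_cancel₀ hx0
  rw [h9] at h8
  exact PadicInt.prime_p.not_isUnit (isUnit_of_dvd_one h8)

/-- Adding `y₁² y₂` to an anisotropic cubic form gives a cubic form vanishing on no plane. -/
theorem no_line {k : Type} [Field k] (A : MvPolynomial (Fin 9) ℤ) (hA : A.IsHomogeneous 3)
    (hA0 : ∀ x : Fin 9 → k, aeval x A = 0 → x = 0) :
    ∃ F : MvPolynomial (Fin 11) k, F.IsHomogeneous 3 ∧ F ≠ 0 ∧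
      ∀ W : Submodule k (Fin 11 → k), Module.finrank k W = 2 → ∃ v ∈ W, eval v F ≠ 0 := by
  let inl : Fin 9 → Fin 11 := fun i => ⟨i.val, by omega⟩
  let F : MvPolynomial (Fin 11) k := rename inl (map (Int.castRingHom k) A) + X 9 ^ 2 * X 10
  have hF : F.IsHomogeneous 3 := by
    apply IsHomogeneous.add
    · exact (hA.map _).rename_isHomogeneous
    · simpa using ((isHomogeneous_X k (9 : Fin 11)).pow 2).mul (isHomogeneous_X k (10 : Fin 11))
  have hval : ∀ v : Fin 11 → k, eval v F = aeval (v ∘ inl) A + v 9 ^ 2 * v 10 := by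
    intro v
    simp only [F, map_add, map_mul, map_pow, eval_X, eval_rename]
    congr 1
    rw [eval_map]
    rfl
  have key : ∀ W : Submodule k (Fin 11 → k), Module.finrank k W = 2 → ∃ v ∈ W, eval v F ≠ 0 := by
    intro W hW
    by_contra hcon
    push Not at hcon
    have hfd : FiniteDimensional k W := Module.finite_of_finrank_pos (by omega)
    let π : W →ₗ[k] (Fin 2 → k) :=
      (LinearMap.funLeft k k (fun t : Fin 2 => (⟨9 + t.val, by omega⟩ : Fin 11))).comp W.subtype
    have hker : ∀ w : W, π w = 0 → w = 0 := by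
      intro w hw
      have h9 : (w : Fin 11 → k) 9 = 0 := congrFun hw 0
      have h10 : (w : Fin 11 → k) 10 = 0 := congrFun hw 1
      have h1 := hcon w w.2
      rw [hval, h9, h10] at h1
      have h2 := hA0 _ (by simpa using h1)
      apply Subtype.ext
      funext i
      by_cases hi : i.val < 9
      · exact congrFun h2 ⟨i.val, hi⟩
      · have h3 : i = 9 ∨ i = 10 := by
          have := i.isLt
          have : i.val = 9 ∨ i.val = 10 := by omega
          rcases this with h | h
          · left; exact Fin.ext h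
          · right; exact Fin.ext h
        rcases h3 with rfl | rfl
        · exact h9
        · exact h10
    have hinj : Function.Injective π := (injective_iff_map_eq_zero π).2 hker
    have hsurj : Function.Surjective π := by
      have hd : Module.finrank k W = Module.finrank k (Fin 2 → k) := by
        rw [hW, Module.finrank_fin_fun]
      exact (LinearMap.injective_iff_surjective_of_finrank_eq_finrank hd).1 hinj
    obtain ⟨a, ha⟩ := hsurj ![1, 0]
    obtain ⟨b, hb⟩ := hsurj ![0, 1]
    have a9 : (a : Fin 11 → k) 9 = 1 := congrFun ha 0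
    have a10 : (a : Fin 11 → k) 10 = 0 := congrFun ha 1
    have b9 : (b : Fin 11 → k) 9 = 0 := congrFun hb 0
    have b10 : (b : Fin 11 → k) 10 = 1 := congrFun hb 1
    have hax : (a : Fin 11 → k) ∘ inl = 0 := by
      apply hA0
      have := hcon a a.2
      rw [hval, a9, a10] at this
      simpa using this
    have hbx : (b : Fin 11 → k) ∘ inl = 0 := by
      apply hA0
      have := hcon b b.2
      rw [hval, b9, b10] at this
      simpa using this
    have h1 := hcon ((a + b : W) : Fin 11 → k) (a + b).2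
    rw [hval] at h1
    have h2 : ((a + b : W) : Fin 11 → k) ∘ inl = fun i => (0 : k) * (0 : k) := by
      funext i
      have e1 := congrFun hax i
      have e2 := congrFun hbx i
      simp only [Function.comp_apply, Pi.zero_apply] at e1 e2
      simp [e1, e2]
    have h3 : aeval (((a + b : W) : Fin 11 → k) ∘ inl) A = 0 := by
      rw [h2, aeval_mul_const hA (0 : k) (fun _ => 0)]
      ring
    rw [h3] at h1
    simp [a9, a10, b9, b10] at h1
  refine ⟨F, hF, ?_, key⟩
  intro h0
  have h1 : eval (fun i => if i = 9 ∨ i = 10 then (1 : k) else 0) F = 1 := by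
    rw [hval]
    have h2 : (fun i : Fin 11 => if i = 9 ∨ i = 10 then (1 : k) else 0) ∘ inl =
        fun i => (0 : k) * (0 : k) := by
      funext i
      have hi := i.isLt
      have e1 : inl i ≠ 9 := by
        intro h
        have := congrArg Fin.val h
        simp [inl] at this
        omega
      have e2 : inl i ≠ 10 := by
        intro h
        have := congrArg Fin.val h
        simp [inl] at this
        omega
      simp [e1, e2]
    rw [h2, aeval_mul_const hA (0 : k) (fun _ => 0)]
    simp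
  rw [h0] at h1
  simp at h1

end Pool.Agent.Helper199.CubicLines
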