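import Mathlib

/-!
A counterexample to the inequality `∏ b(G_p) ≤ b(G)` (Navarro).

Let `D` be the Heisenberg group of order 27 and `τ` the automorphism of `D` which inverts the
coordinates `x, y` (so it inverts the centre) and fixes the coordinate `u`. The group `L = SL(2,3)`
acts on `D ^ 3`: the quaternion group `Q_8` acts through `Q_8 / Z = {(e_0, e_1, e_2) : product 1}`
by `(τ^{e_0}, τ^{e_1}, τ^{e_2})`, and a cyclic group of order 3 permutes the three coordinates.
Put `G = D ^ 3 ⋊ L`, a group of order `2 ^ 3 * 3 ^ 10 = 472392`.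

* The Sylow 2-subgroup is `Q_8`, with `b = 2`.
* The Sylow 3-subgroup is `D wr Z_3`, with `b = 81`: the characters of degree 27 of `D ^ 3` are
  labelled by their central characters in `{±1} ^ 3`, and `Z_3` moves `(1, 1, -1)`.
* `b(G) = 108 < 162`: the group `L / Z(L) = A_4` has two orbits of length 4 on the eight
  characters of degree 27, each with stabiliser `Z_3`, giving the degree `27 * 4`; the characters
  over those of degree at most 9 of `D ^ 3` have degree at most `9 * 12 = 108`.
-/

set_option autoImplicit false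

namespace Pool.Agent.Helper199.Navarro

/-- A group of order 24, isomorphic to `SL(2,3)`: the quaternion group `{(a,b,z)}` extended by a
cyclic group of order three with coordinate `k`. -/
structure L where
  a : ZMod 2
  b : ZMod 2
  z : ZMod 2
  k : Fin 3
deriving DecidableEq, Fintype

namespace L

/-- rotation of the pair `(a,b)` -/
def rot (k : Fin 3) (a b : ZMod 2) : ZMod 2 × ZMod 2 :=
  if k = 0 then (a, b) else if k = 1 then (a + b, a) else (b, a + b)

def mul (l m : L) : L :=
  let r := rot l.k m.a m.b
  ⟨l.a + r.1, l.b + r.2, l.z + m.z + (l.a * r.1 + l.b * r.2 + l.a * r.2), l.k + m.k⟩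

def inv (l : L) : L :=
  let r := rot (-l.k) l.a l.b
  ⟨r.1, r.2, l.z + (l.a * l.a + l.b * l.b + l.a * l.b), -l.k⟩

instance : Mul L := ⟨mul⟩
instance : Inv L := ⟨inv⟩
instance : One L := ⟨⟨0, 0, 0, 0⟩⟩

instance : Group L :=
  Group.ofLeftAxioms (by decide +kernel) (by decide +kernel) (by decide +kernel)

/-- the sign attached to the `i`-th coordinate -/
def sg (l : L) (i : Fin 3) : ZMod 3 :=
  if (if i = 0 then l.a else if i = 1 then l.b else l.a + l.b) = 0 then 1 else -1

theorem sg_mul : ∀ (l m : L) (i : Fin 3), sg (l * m) i = sg l i * sg m (i - l.k) := by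
  decide +kernel

theorem sg_one : ∀ i : Fin 3, sg 1 i = 1 := by decide +kernel

theorem k_mul (l m : L) : (l * m).k = l.k + m.k := rfl

theorem k_one : (1 : L).k = 0 := rfl

end L

/-- The third power of the Heisenberg group of order 27. -/
@[ext]
structure M where
  x : Fin 3 → ZMod 3
  y : Fin 3 → ZMod 3
  u : Fin 3 → ZMod 3
deriving DecidableEq, Fintype

namespace M

instance : Mul M := ⟨fun m n => ⟨m.x + n.x + m.u * n.y, m.y + n.y, m.u + n.u⟩⟩
instance : One M := ⟨⟨0, 0, 0⟩⟩
instance : Inv M := ⟨fun m => ⟨-m.x + m.u * m.y, -m.y, -m.u⟩⟩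

@[simp] theorem mul_x (m n : M) : (m * n).x = m.x + n.x + m.u * n.y := rfl
@[simp] theorem mul_y (m n : M) : (m * n).y = m.y + n.y := rfl
@[simp] theorem mul_u (m n : M) : (m * n).u = m.u + n.u := rfl
@[simp] theorem one_x : (1 : M).x = 0 := rfl
@[simp] theorem one_y : (1 : M).y = 0 := rfl
@[simp] theorem one_u : (1 : M).u = 0 := rfl
@[simp] theorem inv_x (m : M) : (m⁻¹).x = -m.x + m.u * m.y := rfl
@[simp] theorem inv_y (m : M) : (m⁻¹).y = -m.y := rfl
@[simp] theorem inv_u (m : M) : (m⁻¹).u = -m.u := rfl

instance : Group M :=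
  Group.ofLeftAxioms
    (by intro a b c; ext i <;> simp <;> ring)
    (by intro a; ext i <;> simp)
    (by intro a; ext i <;> simp)

theorem card : Nat.card M = 3 ^ 9 := by
  let e : M ≃ (Fin 3 → ZMod 3) × (Fin 3 → ZMod 3) × (Fin 3 → ZMod 3) :=
    { toFun := fun m => (m.x, m.y, m.u)
      invFun := fun p => ⟨p.1, p.2.1, p.2.2⟩
      left_inv := fun m => rfl
      right_inv := fun p => rfl }
  rw [Nat.card_congr e, Nat.card_prod, Nat.card_prod]
  simp

end M

/-- the action of `L` on `M` -/
def act (l : L) (m : M) : M :=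
  ⟨fun i => L.sg l i * m.x (i - l.k), fun i => L.sg l i * m.y (i - l.k), fun i => m.u (i - l.k)⟩

theorem act_mul (l : L) (m n : M) : act l (m * n) = act l m * act l n := by
  ext i <;> simp [act] <;> ring

theorem fin3_sub : ∀ i j k : Fin 3, i - (j + k) = i - j - k := by decide

theorem act_act (l l' : L) (m : M) : act (l * l') m = act l (act l' m) := by
  ext i <;> simp [act, L.sg_mul, L.k_mul, fin3_sub, mul_assoc]

theorem act_one (m : M) : act 1 m = m := by
  ext i <;> simp [act, L.sg_one, L.k_one]

def phi : L →* MulAut M where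
  toFun l :=
    { toFun := act l
      invFun := act l⁻¹
      left_inv := fun m => by rw [← act_act, inv_mul_cancel, act_one]
      right_inv := fun m => by rw [← act_act, mul_inv_cancel, act_one]
      map_mul' := act_mul l }
  map_one' := by ext m : 1; exact act_one m
  map_mul' l l' := by ext m : 1; exact act_act l l' m

@[simp] theorem phi_apply (l : L) (m : M) : phi l m = act l m := rfl

/-- The counterexample. -/
abbrev G := M ⋊[phi] L

instance : Fintype G := Fintype.ofEquiv _ SemidirectProduct.equivProd.symm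

theorem cardL : Nat.card L = 24 := by rw [Nat.card_eq_fintype_card]; decide +kernel

theorem cardG : Nat.card G = 2 ^ 3 * 3 ^ 10 := by
  rw [Nat.card_congr SemidirectProduct.equivProd, Nat.card_prod, M.card, cardL]; norm_num

theorem sg_sq : ∀ (l : L) (i : Fin 3), L.sg l i * L.sg l i = 1 := by decide +kernel

/-- all sign patterns with product one come from `L` -/
theorem exists_l : ∀ c : Fin 3 → ZMod 3, (∀ i, c i ≠ 0) →
    ∃ l : L, l.k = 1 ∧ ∀ i, L.sg l i = c i * c (i - 1) := by decide +kernel

end Pool.Agent.Helper199.Navarro
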