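import Pool.Agent.Helper199.RepDim
import Pool.Agent.Helper199.NavarroGroup

set_option autoImplicit false
open CategoryTheory

namespace Pool.Agent.Helper199.Navarro
open Pool.Agent.Helper199.RepDim

/-- elements of `G` over `L` -/
def el (x y u : Fin 3 → ZMod 3) (l : L) : G := ⟨⟨x, y, u⟩, l⟩

theorem el_mul (x y u x' y' u' : Fin 3 → ZMod 3) (l l' : L) :
    el x y u l * el x' y' u' l' =
      el (fun i => x i + L.sg l i * x' (i - l.k) + u i * (L.sg l i * y' (i - l.k)))
        (fun i => y i + L.sg l i * y' (i - l.k)) (fun i => u i + u' (i - l.k)) (l * l') := by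
  apply SemidirectProduct.ext
  · ext i <;> simp [el, act]
  · simp [el]

theorem el_inj {x y u x' y' u' : Fin 3 → ZMod 3} {l l' : L} (h : el x y u l = el x' y' u' l') :
    x = x' ∧ y = y' ∧ u = u' ∧ l = l' := by
  have h1 := congrArg (fun g : G => g.left.x) h
  have h2 := congrArg (fun g : G => g.left.y) h
  have h3 := congrArg (fun g : G => g.left.u) h
  have h4 := congrArg (fun g : G => g.right) h
  exact ⟨h1, h2, h3, h4⟩

theorem el_one : (1 : G) = el 0 0 0 1 := rfl

/-- central element of `L` -/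
def zL (z : ZMod 2) : L := ⟨0, 0, z, 0⟩

theorem zL_mul : ∀ z z' : ZMod 2, zL z * zL z' = zL (z + z') := by decide +kernel
theorem zL_comm : ∀ (z : ZMod 2) (l : L), l * zL z = zL z * l := by decide +kernel
theorem sg_zL : ∀ (z : ZMod 2) (i : Fin 3), L.sg (zL z) i = 1 := by decide +kernel
theorem zL_k (z : ZMod 2) : (zL z).k = 0 := rfl

abbrev RR := Fin 3 → ZMod 3
abbrev A := Multiplicative (RR × RR × ZMod 2)

/-- the abelian normal subgroup of order 1458 -/
def nA : A →* G where
  toFun a := el a.toAdd.1 a.toAdd.2.1 0 (zL a.toAdd.2.2)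
  map_one' := rfl
  map_mul' a b := by
    rw [el_mul, zL_mul]
    simp only [sg_zL, zL_k, sub_zero, one_mul, Pi.zero_apply, zero_mul, add_zero]
    rfl

theorem nA_apply (x y : RR) (z : ZMod 2) : nA (Multiplicative.ofAdd (x, y, z)) = el x y 0 (zL z) := rfl

theorem nA_inj : Function.Injective nA := by
  intro a b h
  obtain ⟨h1, h2, _, h4⟩ := el_inj h
  have h5 : a.toAdd.2.2 = b.toAdd.2.2 := congrArg L.z h4
  apply Multiplicative.toAdd.injective
  exact Prod.ext h1 (Prod.ext h2 h5)

theorem cardA : Nat.card A = 1458 := by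
  have : Nat.card A = Nat.card (RR × RR × ZMod 2) := rfl
  rw [this, Nat.card_prod, Nat.card_prod]
  simp

noncomputable abbrev ψ : AddChar (ZMod 3) ℂ := ZMod.stdAddChar

theorem cube_root (t : ℂ) (h : t ^ 3 = 1) : ∃ c : ZMod 3, ψ c = t := by
  have h1 : IsPrimitiveRoot (ψ 1) 3 := by
    have h2 := Complex.isPrimitiveRoot_exp 3 (by norm_num)
    have h3 : ψ 1 = Complex.exp (2 * Real.pi * Complex.I / (3 : ℕ)) := by
      have := ZMod.stdAddChar_coe (N := 3) 1
      simpa using this
    rw [h3]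
    exact h2
  obtain ⟨i, _, hi⟩ := h1.eq_pow_of_pow_eq_one h
  refine ⟨(i : ZMod 3), ?_⟩
  rw [← hi, ← AddChar.map_nsmul_eq_pow]
  simp

/-- characters of a cyclic group of order three -/
theorem char3 (f : Multiplicative (ZMod 3) →* ℂ) :
    ∃ c : ZMod 3, ∀ t : ZMod 3, f (Multiplicative.ofAdd t) = ψ (c * t) := by
  obtain ⟨c, hc⟩ := cube_root (f (Multiplicative.ofAdd 1)) (by
    rw [← map_pow, ← ofAdd_nsmul]
    have : (3 • (1 : ZMod 3)) = 0 := by decide
    rw [this, ofAdd_zero, map_one])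
  refine ⟨c, fun t => ?_⟩
  have ht : t = t.val • (1 : ZMod 3) := by simp
  have ht2 : c * t = t.val • c := by rw [nsmul_eq_mul, mul_comm]; simp
  rw [ht2, AddChar.map_nsmul_eq_pow, hc]
  conv_lhs => rw [ht]
  rw [ofAdd_nsmul, map_pow]


def Xi (i : Fin 3) : Multiplicative (ZMod 3) →* A :=
  AddMonoidHom.toMultiplicative
    ((AddMonoidHom.inl RR (RR × ZMod 2)).comp (AddMonoidHom.single (fun _ : Fin 3 => ZMod 3) i))

def Yi (i : Fin 3) : Multiplicative (ZMod 3) →* A :=
  AddMonoidHom.toMultiplicative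
    ((AddMonoidHom.inr RR (RR × ZMod 2)).comp
      ((AddMonoidHom.inl RR (ZMod 2)).comp (AddMonoidHom.single (fun _ : Fin 3 => ZMod 3) i)))

def Zi : Multiplicative (ZMod 2) →* A :=
  AddMonoidHom.toMultiplicative
    ((AddMonoidHom.inr RR (RR × ZMod 2)).comp (AddMonoidHom.inr RR (ZMod 2)))

theorem decomp (x y : RR) (z : ZMod 2) :
    (Multiplicative.ofAdd (x, y, z) : A) =
      (∏ i, Xi i (Multiplicative.ofAdd (x i))) * (∏ i, Yi i (Multiplicative.ofAdd (y i))) *
        Zi (Multiplicative.ofAdd z) := by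
  apply Multiplicative.toAdd.injective
  simp only [toAdd_mul, toAdd_prod]
  have h1 : ∀ i, (Xi i (Multiplicative.ofAdd (x i))).toAdd = (Pi.single i (x i), 0, 0) := fun i => rfl
  have h2 : ∀ i, (Yi i (Multiplicative.ofAdd (y i))).toAdd = (0, Pi.single i (y i), 0) := fun i => rfl
  have h3 : (Zi (Multiplicative.ofAdd z)).toAdd = (0, 0, z) := rfl
  simp only [h1, h2, h3]
  refine Prod.ext ?_ (Prod.ext ?_ ?_)
  · simp [Prod.fst_sum, Finset.univ_sum_single]
  · simp [Prod.fst_sum, Prod.snd_sum, Finset.univ_sum_single]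
  · simp [Prod.snd_sum]

/-- all characters of the abelian normal subgroup -/
theorem charA (ν : A →* ℂ) : ∃ c b : RR, ∀ x y z,
    ν (Multiplicative.ofAdd (x, y, z)) =
      ψ (∑ i, (c i * x i + b i * y i)) * ν (Multiplicative.ofAdd (0, 0, z)) := by
  choose c hc using fun i => char3 (ν.comp (Xi i))
  choose b hb using fun i => char3 (ν.comp (Yi i))
  have hc' : ∀ i t, ν (Xi i (Multiplicative.ofAdd t)) = ψ (c i * t) := hc
  have hb' : ∀ i t, ν (Yi i (Multiplicative.ofAdd t)) = ψ (b i * t) := hb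
  have hψ : ∀ f : Fin 3 → ZMod 3, ψ (∑ i, f i) = ∏ i, ψ (f i) := by
    intro f
    simp [Fin.sum_univ_three, Fin.prod_univ_three, AddChar.map_add_eq_mul]
  refine ⟨c, b, fun x y z => ?_⟩
  rw [decomp x y z, map_mul, map_mul, map_prod, map_prod]
  simp only [hc', hb']
  rw [Finset.sum_add_distrib, AddChar.map_add_eq_mul, hψ, hψ]
  rfl

/-- For every character there is a suitable element of order three modulo the subgroup. -/
theorem key (ν : A →* ℂ) : ∃ s : G, ∃ θ : A → A, (∀ a, s * nA a * s⁻¹ = nA (θ a)) ∧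
      (∀ a, ν (θ a) = ν a) ∧ s ∉ nA.range ∧ s * s ∉ nA.range := by
  obtain ⟨c, b, hν⟩ := charA ν
  by_cases h0 : ∃ i, c i = 0
  · obtain ⟨i, hi⟩ := h0
    let u : RR := Pi.single i 1
    refine ⟨el 0 0 u 1, fun a => Multiplicative.ofAdd (a.toAdd.1 + u * a.toAdd.2.1, a.toAdd.2.1, a.toAdd.2.2),
      ?_, ?_, ?_, ?_⟩
    · intro a
      rw [mul_inv_eq_iff_eq_mul]
      change el 0 0 u 1 * el a.toAdd.1 a.toAdd.2.1 0 (zL a.toAdd.2.2) =
        el (a.toAdd.1 + u * a.toAdd.2.1) a.toAdd.2.1 0 (zL a.toAdd.2.2) * el 0 0 u 1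
      rw [el_mul, el_mul]
      congr 1
      · ext j; simp [L.sg_one, L.k_one]
      · ext j; simp [L.sg_one, L.k_one]
      · ext j; simp [zL_k]
      · simp
    · intro a
      have e1 := hν (a.toAdd.1 + u * a.toAdd.2.1) a.toAdd.2.1 a.toAdd.2.2
      have e2 := hν a.toAdd.1 a.toAdd.2.1 a.toAdd.2.2
      have e3 : (∑ j, (c j * (a.toAdd.1 + u * a.toAdd.2.1) j + b j * a.toAdd.2.1 j)) =
          ∑ j, (c j * a.toAdd.1 j + b j * a.toAdd.2.1 j) := by
        apply Finset.sum_congr rfl
        intro j _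
        by_cases hj : j = i
        · subst hj; simp [hi]
        · simp [u, Pi.single_eq_of_ne hj]
      rw [e3] at e1
      exact e1.trans e2.symm
    · rintro ⟨a, ha⟩
      have h3 := (el_inj ha).2.2.1
      have := congrFun h3 i
      simp [u] at this
    · rintro ⟨a, ha⟩
      rw [el_mul] at ha
      have h3 := (el_inj ha).2.2.1
      have h4 := congrFun h3 i
      simp [u, L.k_one] at h4
      revert h4
      decide
  · push Not at h0
    obtain ⟨l, hl1, hl2⟩ := exists_l c h0
    let s : RR := fun i => L.sg l i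
    let u : RR := fun i => c i * (b (i - 1) * s i - b i)
    refine ⟨el 0 0 u l, fun a => Multiplicative.ofAdd
      (fun i => s i * a.toAdd.1 (i - 1) + u i * (s i * a.toAdd.2.1 (i - 1)),
        fun i => s i * a.toAdd.2.1 (i - 1), a.toAdd.2.2), ?_, ?_, ?_, ?_⟩
    · intro a
      rw [mul_inv_eq_iff_eq_mul]
      change el 0 0 u l * el a.toAdd.1 a.toAdd.2.1 0 (zL a.toAdd.2.2) =
        el (fun i => s i * a.toAdd.1 (i - 1) + u i * (s i * a.toAdd.2.1 (i - 1)))
          (fun i => s i * a.toAdd.2.1 (i - 1)) 0 (zL a.toAdd.2.2) * el 0 0 u l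
      rw [el_mul, el_mul]
      congr 1
      · ext j; simp [hl1, s]
      · ext j; simp [hl1, s]
      · ext j; simp [zL_k]
      · exact zL_comm _ _
    · intro a
      have e1 := hν (fun i => s i * a.toAdd.1 (i - 1) + u i * (s i * a.toAdd.2.1 (i - 1)))
        (fun i => s i * a.toAdd.2.1 (i - 1)) a.toAdd.2.2
      have e2 := hν a.toAdd.1 a.toAdd.2.1 a.toAdd.2.2
      have hs2 : ∀ i, s i * s i = 1 := fun i => sg_sq l i
      have hc2 : ∀ i, c i * c i = 1 := by
        intro i
        have := h0 i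
        revert this
        generalize c i = t
        revert t
        decide
      have e3 : (∑ i, (c i * (s i * a.toAdd.1 (i - 1) + u i * (s i * a.toAdd.2.1 (i - 1))) +
          b i * (s i * a.toAdd.2.1 (i - 1)))) =
          ∑ i, (c i * a.toAdd.1 i + b i * a.toAdd.2.1 i) := by
        rw [← Equiv.sum_comp (Equiv.subRight (1 : Fin 3)) (fun i => c i * a.toAdd.1 i + b i * a.toAdd.2.1 i)]
        apply Finset.sum_congr rfl
        intro i _
        have h1 : c i * s i = c (i - 1) := by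
          change c i * L.sg l i = _
          rw [hl2, ← mul_assoc, hc2, one_mul]
        simp only [Equiv.subRight_apply, u]
        have h2 : c i * (c i * (b (i - 1) * s i - b i)) * s i + b i * s i = b (i - 1) := by
          calc c i * (c i * (b (i - 1) * s i - b i)) * s i + b i * s i
              = (c i * c i) * (b (i - 1) * (s i * s i) - b i * s i) + b i * s i := by ring
            _ = b (i - 1) := by rw [hc2, hs2]; ring
        linear_combination (a.toAdd.1 (i - 1)) * h1 + (a.toAdd.2.1 (i - 1)) * h2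
      exact (e1.trans (by rw [e3])).trans e2.symm
    · rintro ⟨a, ha⟩
      have h3 := (el_inj ha).2.2.2
      have := congrArg L.k h3
      rw [hl1, zL_k] at this
      exact absurd this (by decide)
    · rintro ⟨a, ha⟩
      rw [el_mul] at ha
      have h3 := (el_inj ha).2.2.2
      have := congrArg L.k h3
      rw [L.k_mul, hl1, zL_k] at this
      exact absurd this (by decide)

/-- Upper bound: every irreducible representation of `G` has dimension at most 108. -/
theorem upper (V : FDRep ℂ G) [Simple V] : Module.finrank ℂ V ≤ 108 := by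
  have := bound V (simple_nonzero V) nA nA_inj key
  rw [cardA, cardG] at this
  omega


/-! ### lower bound at the prime 3 -/

abbrev A3 := Multiplicative (RR × RR)

/-- the abelian subgroup of order 729 -/
def n3 : A3 →* G where
  toFun a := el a.toAdd.1 a.toAdd.2 0 1
  map_one' := rfl
  map_mul' a b := by
    rw [el_mul, mul_one]
    simp only [L.sg_one, L.k_one, sub_zero, one_mul, Pi.zero_apply, zero_mul, add_zero]
    rfl

theorem n3_inj : Function.Injective n3 := by
  intro a b h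
  obtain ⟨h1, h2, _, _⟩ := el_inj h
  exact Multiplicative.toAdd.injective (Prod.ext h1 h2)

def rotL (k : Fin 3) : L := ⟨0, 0, 0, k⟩

theorem sg_rotL : ∀ (k : Fin 3) (i : Fin 3), L.sg (rotL k) i = 1 := by decide +kernel

theorem rotL_k (k : Fin 3) : (rotL k).k = k := rfl

abbrev J3 := RR × Fin 3

def g3 (j : J3) : G := el 0 0 j.1 (rotL j.2)

def th3 (j : J3) (a : A3) : A3 :=
  Multiplicative.ofAdd (fun i => a.toAdd.1 (i - j.2) + j.1 i * a.toAdd.2 (i - j.2), fun i => a.toAdd.2 (i - j.2))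

theorem g3_conj (j : J3) (a : A3) : g3 j * n3 a * (g3 j)⁻¹ = n3 (th3 j a) := by
  rw [mul_inv_eq_iff_eq_mul]
  change el 0 0 j.1 (rotL j.2) * el a.toAdd.1 a.toAdd.2 0 1 =
    el (fun i => a.toAdd.1 (i - j.2) + j.1 i * a.toAdd.2 (i - j.2)) (fun i => a.toAdd.2 (i - j.2)) 0 1 *
      el 0 0 j.1 (rotL j.2)
  rw [el_mul, el_mul]
  congr 1
  · ext i; simp [sg_rotL, rotL_k]
  · ext i; simp [sg_rotL, rotL_k]
  · ext i; simp [L.k_one]
  · rw [mul_one, one_mul]

def c3 : RR := ![1, 1, -1]

noncomputable def nu3 : A3 →* ℂ where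
  toFun a := ψ (∑ i, c3 i * a.toAdd.1 i)
  map_one' := by simp
  map_mul' a b := by
    rw [← AddChar.map_add_eq_mul, ← Finset.sum_add_distrib]
    congr 1
    apply Finset.sum_congr rfl
    intro i _
    rw [toAdd_mul, Prod.fst_add, Pi.add_apply, mul_add]

theorem nu3_th (j : J3) (x y : RR) : nu3 (th3 j (Multiplicative.ofAdd (x, y))) =
    ψ (∑ i, c3 i * (x (i - j.2) + j.1 i * y (i - j.2))) := rfl

theorem shift_aux : ∀ k k' : Fin 3, (∀ x : Fin 3, ∑ i, c3 i * (Pi.single x 1 : RR) (i - k) =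
    ∑ i, c3 i * (Pi.single x 1 : RR) (i - k')) → k = k' := by decide +kernel

theorem c3_ne : ∀ i, c3 i * c3 i = 1 := by decide +kernel

theorem dist3 (j j' : J3) (h : ∀ a, nu3 (th3 j a) = nu3 (th3 j' a)) : j = j' := by
  obtain ⟨u, k⟩ := j
  obtain ⟨u', k'⟩ := j'
  have h1 : ∀ x y : RR, ∑ i, c3 i * (x (i - k) + u i * y (i - k)) =
      ∑ i, c3 i * (x (i - k') + u' i * y (i - k')) := by
    intro x y
    have := h (Multiplicative.ofAdd (x, y))
    rw [nu3_th, nu3_th] at this
    exact ZMod.injective_stdAddChar this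
  have hk : k = k' := by
    apply shift_aux
    intro t
    have := h1 (Pi.single t 1) 0
    simpa using this
  subst hk
  have hu : u = u' := by
    ext i
    have := h1 0 (Pi.single (i - k) 1)
    rw [Finset.sum_eq_single i, Finset.sum_eq_single i] at this
    · simp only [Pi.zero_apply, zero_add, Pi.single_eq_same, mul_one] at this
      have h2 : c3 i * (c3 i * u i) = c3 i * (c3 i * u' i) := by rw [this]
      rwa [← mul_assoc, ← mul_assoc, c3_ne, one_mul, one_mul] at h2
    · intro m _ hm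
      have : m - k ≠ i - k := fun h => hm (sub_left_injective h)
      simp [Pi.single_eq_of_ne this]
    · intro h; exact absurd (Finset.mem_univ _) h
    · intro m _ hm
      have : m - k ≠ i - k := fun h => hm (sub_left_injective h)
      simp [Pi.single_eq_of_ne this]
    · intro h; exact absurd (Finset.mem_univ _) h
  rw [hu]

/-- the subgroup of order three of `L` -/
def L3 : Subgroup L where
  carrier := {l | l.a = 0 ∧ l.b = 0 ∧ l.z = 0}
  one_mem' := ⟨rfl, rfl, rfl⟩
  mul_mem' := by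
    have : ∀ l m : L, (l.a = 0 ∧ l.b = 0 ∧ l.z = 0) → (m.a = 0 ∧ m.b = 0 ∧ m.z = 0) →
      ((l * m).a = 0 ∧ (l * m).b = 0 ∧ (l * m).z = 0) := by decide +kernel
    intro a b ha hb
    exact this a b ha hb
  inv_mem' := by
    have : ∀ l : L, (l.a = 0 ∧ l.b = 0 ∧ l.z = 0) → ((l⁻¹).a = 0 ∧ (l⁻¹).b = 0 ∧ (l⁻¹).z = 0) := by
      decide +kernel
    intro a ha
    exact this a ha

theorem L3_p : IsPGroup 3 L3 := by
  have : ∀ l : L, (l.a = 0 ∧ l.b = 0 ∧ l.z = 0) → l ^ 3 = 1 := by decide +kernel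
  intro l
  refine ⟨1, Subtype.ext ?_⟩
  exact this l.1 l.2

/-- the quaternion subgroup of `L` -/
def L2 : Subgroup L where
  carrier := {l | l.k = 0}
  one_mem' := rfl
  mul_mem' := by
    have : ∀ l m : L, l.k = 0 → m.k = 0 → (l * m).k = 0 := by decide +kernel
    intro a b ha hb
    exact this a b ha hb
  inv_mem' := by
    have : ∀ l : L, l.k = 0 → (l⁻¹).k = 0 := by decide +kernel
    intro a ha
    exact this a ha

theorem L2_p : IsPGroup 2 L2 := by
  have : ∀ l : L, l.k = 0 → l ^ 4 = 1 := by decide +kernel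
  intro l
  refine ⟨2, Subtype.ext ?_⟩
  exact this l.1 l.2

theorem M_p : IsPGroup 3 M := IsPGroup.of_card M.card

theorem ker_p : IsPGroup 3 (SemidirectProduct.rightHom (φ := phi)).ker := by
  rw [← SemidirectProduct.range_inl_eq_ker_rightHom]
  exact M_p.of_surjective _ (SemidirectProduct.inl (φ := phi)).rangeRestrict_surjective

instance : Fact (Nat.Prime 3) := ⟨by norm_num⟩

/-- the subgroup of order `3 ^ 10` -/
def T3 : Subgroup G := L3.comap SemidirectProduct.rightHom

theorem T3_p : IsPGroup 3 T3 := L3_p.comap_of_ker_isPGroup _ ker_p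

theorem lower3 : ∃ P : Sylow 3 G, ∃ V : FDRep ℂ ↥(P : Subgroup G),
    Simple V ∧ 81 ≤ Module.finrank ℂ V := by
  obtain ⟨P, hP⟩ := T3_p.exists_le_sylow
  have hn : ∀ a, n3 a ∈ (P : Subgroup G) := fun a => hP ⟨rfl, rfl, rfl⟩
  have hg : ∀ j, g3 j ∈ (P : Subgroup G) := fun j => hP ⟨rfl, rfl, rfl⟩
  obtain ⟨V, hV, hd⟩ := exists_simple (n3.codRestrict (P : Subgroup G) hn)
    (fun a b h => n3_inj (congrArg Subtype.val h)) nu3 (fun j : J3 => ⟨g3 j, hg j⟩) th3
    (fun j a => Subtype.ext (g3_conj j a)) dist3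
  refine ⟨P, V, hV, ?_⟩
  have : Fintype.card J3 = 81 := by simp [J3, RR]
  rw [this] at hd
  exact hd

/-! ### lower bound at the prime 2 -/

abbrev A2 := Multiplicative (ZMod 4)

def iL : L := ⟨1, 0, 0, 0⟩
def jL : L := ⟨0, 1, 0, 0⟩

def n2L : A2 →* L where
  toFun a := iL ^ (a.toAdd.val)
  map_one' := rfl
  map_mul' := by decide +kernel

theorem n2L_inj : Function.Injective n2L := by
  have : ∀ a b : A2, iL ^ (a.toAdd.val) = iL ^ (b.toAdd.val) → a = b := by decide +kernel
  intro a b h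
  exact this a b h

theorem n2L_mem : ∀ a : A2, (iL ^ (a.toAdd.val)).k = 0 := by decide +kernel

def g2L (j : Fin 2) : L := if j = 0 then 1 else jL

def th2 (j : Fin 2) (a : A2) : A2 := if j = 0 then a else a⁻¹

theorem g2L_conj : ∀ (j : Fin 2) (a : A2), g2L j * iL ^ (a.toAdd.val) * (g2L j)⁻¹ =
    iL ^ ((th2 j a).toAdd.val) := by decide +kernel

noncomputable def nu2 : A2 →* ℂ := (ZMod.stdAddChar (N := 4)).toMonoidHom

theorem dist2 (j j' : Fin 2) (h : ∀ a, nu2 (th2 j a) = nu2 (th2 j' a)) : j = j' := by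
  have h1 : (th2 j (Multiplicative.ofAdd 1) : A2).toAdd = (th2 j' (Multiplicative.ofAdd 1) : A2).toAdd :=
    ZMod.injective_stdAddChar (N := 4) (h (Multiplicative.ofAdd 1))
  have h2 : ∀ j j' : Fin 2, (th2 j (Multiplicative.ofAdd 1) : A2).toAdd =
      (th2 j' (Multiplicative.ofAdd 1) : A2).toAdd → j = j' := by decide +kernel
  exact h2 j j' h1

def T2 : Subgroup G := L2.map SemidirectProduct.inr

theorem T2_p : IsPGroup 2 T2 := L2_p.map _

theorem lower2 : ∃ P : Sylow 2 G, ∃ V : FDRep ℂ ↥(P : Subgroup G),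
    Simple V ∧ 2 ≤ Module.finrank ℂ V := by
  obtain ⟨P, hP⟩ := T2_p.exists_le_sylow
  let n2 : A2 →* G := (SemidirectProduct.inr (φ := phi)).comp n2L
  have hn : ∀ a, n2 a ∈ (P : Subgroup G) := fun a => hP ⟨n2L a, n2L_mem a, rfl⟩
  let g2 : Fin 2 → G := fun j => SemidirectProduct.inr (g2L j)
  have hgk : ∀ j, (g2L j).k = 0 := by decide
  have hg : ∀ j, g2 j ∈ (P : Subgroup G) := fun j => hP ⟨g2L j, hgk j, rfl⟩
  have hinj : Function.Injective n2 := SemidirectProduct.inr_injective.comp n2L_inj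
  have hconj : ∀ j a, g2 j * n2 a * (g2 j)⁻¹ = n2 (th2 j a) := by
    intro j a
    change SemidirectProduct.inr (g2L j) * SemidirectProduct.inr (n2L a) *
      (SemidirectProduct.inr (g2L j))⁻¹ = SemidirectProduct.inr (n2L (th2 j a))
    rw [← map_inv, ← map_mul, ← map_mul]
    congr 1
    exact g2L_conj j a
  obtain ⟨V, hV, hd⟩ := exists_simple (n2.codRestrict (P : Subgroup G) hn)
    (fun a b h => hinj (congrArg Subtype.val h)) nu2 (fun j : Fin 2 => ⟨g2 j, hg j⟩) th2
    (fun j a => Subtype.ext (hconj j a)) dist2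
  refine ⟨P, V, hV, ?_⟩
  simpa using hd

end Pool.Agent.Helper199.Navarro
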