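import Mathlib

set_option autoImplicit false

open Finset

namespace Pool.Agent.Helper199.Ore

variable {V : Type*} [Fintype V] [DecidableEq V]

/-- `f` places the vertices of `S` with no conflict, and every vertex outside `S` currently sits
at a blue vertex of degree at most `q / 2`. -/
def Good (R B : SimpleGraph V) [DecidableRel B.Adj] (q : ℕ) (S : Finset V)
    (f : Equiv.Perm V) : Prop :=
  (∀ x ∈ S, ∀ y ∈ S, R.Adj x y → ¬ B.Adj (f x) (f y)) ∧ (∀ w, w ∉ S → 2 * B.degree (f w) ≤ q)

theorem countA (R B : SimpleGraph V) [DecidableRel R.Adj] [DecidableRel B.Adj]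
    (p : ℕ) (hp : ∀ x y, R.Adj x y → R.degree x + R.degree y ≤ p)
    (S : Finset V) (u : V) (hu : u ∉ S)
    (hup : ∀ x ∈ S, R.degree u ≤ R.degree x) (hup2 : 2 * R.degree u ≤ p) (f : Equiv.Perm V) :
    (univ.filter (fun w => w ∈ S ∧ ∃ x ∈ S, R.Adj x w ∧ B.Adj (f x) (f u))).card
      + (univ.filter (fun w => w ∈ S ∧ R.Adj u w ∧ B.Adj (f w) (f u))).card
      ≤ B.degree (f u) * (p - R.degree u) := by
  classical
  set X : Finset V := univ.filter (fun x => x ∈ S ∧ B.Adj (f x) (f u)) with hX
  let Ax : V → Finset V := fun x => univ.filter (fun w => w ∈ S ∧ R.Adj x w)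
  have h1 : (univ.filter (fun w => w ∈ S ∧ ∃ x ∈ S, R.Adj x w ∧ B.Adj (f x) (f u))).card
      ≤ ∑ x ∈ X, (Ax x).card := by
    refine le_trans (card_le_card ?_) card_biUnion_le
    intro w hw
    simp only [mem_filter, mem_univ, true_and] at hw
    obtain ⟨hwS, x, hxS, hxw, hxu⟩ := hw
    simp only [mem_biUnion]
    exact ⟨x, by simp [hX, hxS, hxu], by simp [Ax, hwS, hxw]⟩
  have h2 : (univ.filter (fun w => w ∈ S ∧ R.Adj u w ∧ B.Adj (f w) (f u))).card
      = ∑ x ∈ X, (if R.Adj u x then 1 else 0) := by
    rw [← card_filter]
    congr 1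
    ext w
    simp only [hX, mem_filter, mem_univ, true_and]
    tauto
  have h3 : X.card ≤ B.degree (f u) := by
    rw [← SimpleGraph.card_neighborFinset_eq_degree]
    refine card_le_card_of_injOn f ?_ (f.injective.injOn)
    intro x hx
    simp only [hX, coe_filter, mem_univ, true_and, Set.mem_ofPred_eq] at hx
    simp [hx.2.symm]
  rw [h2]
  calc _ ≤ ∑ x ∈ X, (Ax x).card + ∑ x ∈ X, (if R.Adj u x then 1 else 0) := by
        exact Nat.add_le_add_right h1 _
    _ = ∑ x ∈ X, ((Ax x).card + (if R.Adj u x then 1 else 0)) := by
        rw [sum_add_distrib]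
    _ ≤ ∑ x ∈ X, (p - R.degree u) := by
        refine sum_le_sum ?_
        intro x hx
        simp only [hX, mem_filter, mem_univ, true_and] at hx
        by_cases hux : R.Adj u x
        · have hsub : Ax x ⊆ (R.neighborFinset x).erase u := by
            intro w hw
            simp only [Ax, mem_filter, mem_univ, true_and] at hw
            simp only [mem_erase, SimpleGraph.mem_neighborFinset]
            refine ⟨?_, hw.2⟩
            rintro rfl
            exact hu hw.1
          have hc := card_le_card hsub
          rw [card_erase_of_mem (by simp [hux.symm]), SimpleGraph.card_neighborFinset_eq_degree] at hc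
          have := hp u x hux
          have hpos : 0 < R.degree x := by
            rw [SimpleGraph.degree_pos_iff_exists_adj]; exact ⟨u, hux.symm⟩
          simp only [hux, if_true]
          omega
        · simp only [hux, if_false, add_zero]
          by_cases hne : (Ax x).Nonempty
          · obtain ⟨w, hw⟩ := hne
            simp only [Ax, mem_filter, mem_univ, true_and] at hw
            have h4 := hp x w hw.2
            have h5 := hup w hw.1
            have hsub : Ax x ⊆ R.neighborFinset x := by
              intro w hw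
              simp only [Ax, mem_filter, mem_univ, true_and] at hw
              simp [hw.2]
            have hc := card_le_card hsub
            rw [SimpleGraph.card_neighborFinset_eq_degree] at hc
            omega
          · rw [not_nonempty_iff_eq_empty] at hne
            simp [hne]
    _ = X.card * (p - R.degree u) := by rw [sum_const, smul_eq_mul]
    _ ≤ B.degree (f u) * (p - R.degree u) := Nat.mul_le_mul_right _ h3

theorem countC (R B : SimpleGraph V) [DecidableRel R.Adj] [DecidableRel B.Adj]
    (q : ℕ) (hq : ∀ x y, B.Adj x y → B.degree x + B.degree y ≤ q)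
    (S : Finset V) (u : V) (f : Equiv.Perm V) :
    (univ.filter (fun w => w ≠ u ∧ (∃ x ∈ S, R.Adj u x ∧ B.Adj (f x) (f w)) ∧
        B.degree (f u) ≤ B.degree (f w))).card
      + (univ.filter (fun w => w ∈ S ∧ R.Adj u w ∧ B.Adj (f w) (f u))).card
      ≤ R.degree u * (q - B.degree (f u)) := by
  classical
  set N : Finset V := univ.filter (fun x => x ∈ S ∧ R.Adj u x) with hN
  let Cx : V → Finset V := fun x => univ.filter (fun w => w ≠ u ∧ B.Adj (f x) (f w) ∧
    B.degree (f u) ≤ B.degree (f w))
  have h1 : (univ.filter (fun w => w ≠ u ∧ (∃ x ∈ S, R.Adj u x ∧ B.Adj (f x) (f w)) ∧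
        B.degree (f u) ≤ B.degree (f w))).card
      ≤ ∑ x ∈ N, (Cx x).card := by
    refine le_trans (card_le_card ?_) card_biUnion_le
    intro w hw
    simp only [mem_filter, mem_univ, true_and] at hw
    obtain ⟨hwu, ⟨x, hxS, hux, hxw⟩, hd⟩ := hw
    simp only [mem_biUnion]
    exact ⟨x, by simp [hN, hxS, hux], by simp [Cx, hwu, hxw, hd]⟩
  have h2 : (univ.filter (fun w => w ∈ S ∧ R.Adj u w ∧ B.Adj (f w) (f u))).card
      = ∑ x ∈ N, (if B.Adj (f x) (f u) then 1 else 0) := by
    rw [← card_filter]
    congr 1
    ext w
    simp only [hN, mem_filter, mem_univ, true_and]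
    tauto
  have h3 : N.card ≤ R.degree u := by
    rw [← SimpleGraph.card_neighborFinset_eq_degree]
    refine card_le_card ?_
    intro x hx
    simp only [hN, mem_filter, mem_univ, true_and] at hx
    simp [hx.2]
  rw [h2]
  calc _ ≤ ∑ x ∈ N, (Cx x).card + ∑ x ∈ N, (if B.Adj (f x) (f u) then 1 else 0) := by
        exact Nat.add_le_add_right h1 _
    _ = ∑ x ∈ N, ((Cx x).card + (if B.Adj (f x) (f u) then 1 else 0)) := by
        rw [sum_add_distrib]
    _ ≤ ∑ x ∈ N, (q - B.degree (f u)) := by
        refine sum_le_sum ?_
        intro x hx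
        simp only [hN, mem_filter, mem_univ, true_and] at hx
        by_cases hxu : B.Adj (f x) (f u)
        · have hc : (Cx x).card ≤ ((B.neighborFinset (f x)).erase (f u)).card := by
            refine card_le_card_of_injOn f ?_ (f.injective.injOn)
            intro w hw
            simp only [Cx, coe_filter, mem_univ, true_and, Set.mem_ofPred_eq] at hw
            simp only [coe_erase, Set.mem_sdiff, mem_coe, SimpleGraph.mem_neighborFinset,
              Set.mem_singleton_iff, EmbeddingLike.apply_eq_iff_eq]
            exact ⟨hw.2.1, hw.1⟩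
          rw [card_erase_of_mem (by simp [hxu]), SimpleGraph.card_neighborFinset_eq_degree] at hc
          have := hq (f x) (f u) hxu
          have hpos : 0 < B.degree (f x) := by
            rw [SimpleGraph.degree_pos_iff_exists_adj]; exact ⟨f u, hxu⟩
          simp only [hxu, if_true]
          omega
        · simp only [hxu, if_false, add_zero]
          by_cases hne : (Cx x).Nonempty
          · obtain ⟨w, hw⟩ := hne
            simp only [Cx, mem_filter, mem_univ, true_and] at hw
            have h4 := hq (f x) (f w) hw.2.1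
            have h5 := hw.2.2
            have hc : (Cx x).card ≤ (B.neighborFinset (f x)).card := by
              refine card_le_card_of_injOn f ?_ (f.injective.injOn)
              intro w hw
              simp only [Cx, coe_filter, mem_univ, true_and, Set.mem_ofPred_eq] at hw
              simp [hw.2.1]
            rw [SimpleGraph.card_neighborFinset_eq_degree] at hc
            omega
          · rw [not_nonempty_iff_eq_empty] at hne
            simp [hne]
    _ = N.card * (q - B.degree (f u)) := by rw [sum_const, smul_eq_mul]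
    _ ≤ R.degree u * (q - B.degree (f u)) := Nat.mul_le_mul_right _ h3

theorem step (R B : SimpleGraph V) [DecidableRel R.Adj] [DecidableRel B.Adj]
    (p q : ℕ) (hp : ∀ x y, R.Adj x y → R.degree x + R.degree y ≤ p)
    (hq : ∀ x y, B.Adj x y → B.degree x + B.degree y ≤ q)
    (hpq : p * q < 2 * Fintype.card V)
    (S : Finset V) (u : V) (hu : u ∉ S)
    (hup : ∀ x ∈ S, R.degree u ≤ R.degree x) (hup2 : 2 * R.degree u ≤ p)
    (hex : ∃ f, Good R B q S f) : ∃ f, Good R B q (insert u S) f := by
  classical
  by_contra hcon
  push Not at hcon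
  -- choose a minimizer
  obtain ⟨f, hf, hmin⟩ : ∃ f, Good R B q S f ∧
      ∀ g, Good R B q S g → B.degree (f u) ≤ B.degree (g u) := by
    obtain ⟨f, hf1, hf2⟩ := Set.exists_min_image {f : Equiv.Perm V | Good R B q S f}
      (fun f => B.degree (f u)) (Set.toFinite _) hex
    exact ⟨f, hf1, hf2⟩
  have hb0 : 2 * B.degree (f u) ≤ q := hf.2 u hu
  set D : Finset V := univ.filter (fun w => w ∈ S ∧ R.Adj u w ∧ B.Adj (f w) (f u)) with hD
  have hκ : 1 ≤ D.card := by
    rw [Nat.one_le_iff_ne_zero]
    intro h0
    rw [card_eq_zero] at h0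
    apply hcon f
    refine ⟨?_, ?_⟩
    · intro x hx y hy hxy
      rw [mem_insert] at hx hy
      rcases hx with rfl | hx
      · rcases hy with rfl | hy
        · exact (R.irrefl hxy).elim
        · intro hb
          have : y ∈ D := by simp [hD, hy, hxy, hb.symm]
          rw [h0] at this
          simp at this
      · rcases hy with rfl | hy
        · intro hb
          have : x ∈ D := by simp [hD, hx, hxy.symm, hb]
          rw [h0] at this
          simp at this
        · exact hf.1 x hx y hy hxy
    · intro w hw
      exact hf.2 w (fun h => hw (mem_insert_of_mem h))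
  set A : Finset V := univ.filter (fun w => w ∈ S ∧ ∃ x ∈ S, R.Adj x w ∧ B.Adj (f x) (f u)) with hA
  set C : Finset V := univ.filter (fun w => w ≠ u ∧ (∃ x ∈ S, R.Adj u x ∧ B.Adj (f x) (f w)) ∧
        B.degree (f u) ≤ B.degree (f w)) with hC
  have hcover : univ.erase u ⊆ A ∪ C ∪ D := by
    intro w hw
    have hwu : w ≠ u := (mem_erase.mp hw).1
    by_cases hwA : w ∈ A
    · simp [hwA]
    by_cases hwD : w ∈ D
    · simp [hwD]
    have hα : w ∈ S → ∀ x ∈ S, R.Adj x w → ¬ B.Adj (f x) (f u) := by
      intro hwS x hx hxw hb
      exact hwA (by simp only [hA, mem_filter, mem_univ, true_and]; exact ⟨hwS, x, hx, hxw, hb⟩)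
    set g : Equiv.Perm V := (Equiv.swap u w).trans f with hg
    have hgu : g u = f w := by simp [hg]
    have hgw : g w = f u := by simp [hg]
    have hgo : ∀ v, v ≠ u → v ≠ w → g v = f v := by
      intro v h1 h2
      simp [hg, Equiv.swap_apply_of_ne_of_ne h1 h2]
    have hS1 : ∀ x ∈ S, ∀ y ∈ S, R.Adj x y → ¬ B.Adj (g x) (g y) := by
      intro x hx y hy hxy
      have hxu : x ≠ u := fun h => hu (h ▸ hx)
      have hyu : y ≠ u := fun h => hu (h ▸ hy)
      by_cases hxw : x = w
      · subst hxw
        have hyx : y ≠ x := hxy.ne'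
        rw [hgw, hgo y hyu hyx]
        intro hb
        exact hα hx y hy hxy.symm hb.symm
      · by_cases hyw : y = w
        · subst hyw
          rw [hgw, hgo x hxu hxw]
          exact hα hy x hx hxy
        · rw [hgo x hxu hxw, hgo y hyu hyw]
          exact hf.1 x hx y hy hxy
    have hdeg : B.degree (f u) ≤ B.degree (f w) := by
      by_cases hHw : 2 * B.degree (f w) ≤ q
      · have hgood : Good R B q S g := by
          refine ⟨hS1, ?_⟩
          intro v hv
          by_cases hvu : v = u
          · rw [hvu, hgu]; exact hHw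
          · by_cases hvw : v = w
            · rw [hvw, hgw]; exact hb0
            · rw [hgo v hvu hvw]; exact hf.2 v hv
        have := hmin g hgood
        rwa [hgu] at this
      · omega
    have hng := hcon g
    have hwC : w ∈ C := by
      by_contra hwC
      apply hng
      have key : ∀ x ∈ S, R.Adj u x → ¬ B.Adj (g u) (g x) := by
        intro x hx hux hb
        have hxu : x ≠ u := hux.ne'
        by_cases hxw : x = w
        · subst hxw
          rw [hgu, hgw] at hb
          exact hwD (by simp [hD, hx, hux, hb])
        · rw [hgu, hgo x hxu hxw] at hb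
          exact hwC (by
            simp only [hC, mem_filter, mem_univ, true_and]
            exact ⟨hwu, ⟨x, hx, hux, hb.symm⟩, hdeg⟩)
      refine ⟨?_, ?_⟩
      · intro x hx y hy hxy
        rw [mem_insert] at hx hy
        rcases hx with rfl | hx
        · rcases hy with rfl | hy
          · exact (R.irrefl hxy).elim
          · exact key y hy hxy
        · rcases hy with rfl | hy
          · intro hb
            exact key x hx hxy.symm hb.symm
          · exact hS1 x hx y hy hxy
      · intro v hv
        have hvu : v ≠ u := fun h => hv (by simp [h])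
        have hvS : v ∉ S := fun h => hv (mem_insert_of_mem h)
        by_cases hvw : v = w
        · rw [hvw, hgw]; exact hb0
        · rw [hgo v hvu hvw]; exact hf.2 v hvS
    simp [hwC]
  have hc := card_le_card hcover
  have hc2 : (A ∪ C ∪ D).card ≤ A.card + C.card + D.card :=
    le_trans (card_union_le _ _) (Nat.add_le_add_right (card_union_le _ _) _)
  rw [card_erase_of_mem (mem_univ u), card_univ] at hc
  have hcA := countA R B p hp S u hu hup hup2 f
  have hcC := countC R B q hq S u f
  rw [← hA, ← hD] at hcA
  rw [← hC, ← hD] at hcC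
  have hfin : 2 * (B.degree (f u) * (p - R.degree u) + R.degree u * (q - B.degree (f u))) ≤ p * q := by
    obtain ⟨p', hp'⟩ : ∃ p', p = 2 * R.degree u + p' := ⟨p - 2 * R.degree u, by omega⟩
    obtain ⟨q', hq'⟩ : ∃ q', q = 2 * B.degree (f u) + q' := ⟨q - 2 * B.degree (f u), by omega⟩
    have e1 : p - R.degree u = R.degree u + p' := by omega
    have e2 : q - B.degree (f u) = B.degree (f u) + q' := by omega
    rw [e1, e2]
    conv_rhs => rw [hp', hq']
    nlinarith [Nat.zero_le (p' * q')]
  have hnpos : 0 < Fintype.card V := Fintype.card_pos_iff.mpr ⟨u⟩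
  omega

theorem core (R B : SimpleGraph V) [DecidableRel R.Adj] [DecidableRel B.Adj]
    (p q : ℕ) (hp : ∀ x y, R.Adj x y → R.degree x + R.degree y ≤ p)
    (hq : ∀ x y, B.Adj x y → B.degree x + B.degree y ≤ q)
    (hpq : p * q < 2 * Fintype.card V)
    (hcard : (univ.filter (fun x => q < 2 * B.degree x)).card ≤
      (univ.filter (fun x => p < 2 * R.degree x)).card) :
    ∃ σ : Equiv.Perm V, ∀ a b, R.Adj a b → ¬ B.Adj (σ a) (σ b) := by
  classical
  set HR : Finset V := univ.filter (fun x => p < 2 * R.degree x) with hHR
  set HB : Finset V := univ.filter (fun x => q < 2 * B.degree x) with hHB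
  have main : ∀ k, HR.card ≤ k → k ≤ Fintype.card V →
      ∃ S : Finset V, S.card = k ∧ HR ⊆ S ∧ (∀ x ∈ S, ∀ y, y ∉ S → R.degree y ≤ R.degree x) ∧
        ∃ f, Good R B q S f := by
    intro k hk
    induction k, hk using Nat.le_induction with
    | base =>
      intro _
      refine ⟨HR, rfl, Subset.refl _, ?_, ?_⟩
      · intro x hx y hy
        simp only [hHR, mem_filter, mem_univ, true_and] at hx hy
        omega
      · -- a permutation whose image of HR contains HB
        obtain ⟨T, hT1, hT2⟩ := exists_subset_card_eq hcard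
        have hcc : T.card = HB.card := hT2
        obtain ⟨e⟩ : Nonempty (T ≃ HB) := by
          exact ⟨Finset.equivOfCardEq hcc⟩
        let f : Equiv.Perm V := Equiv.extendSubtype (p := (· ∈ T)) (q := (· ∈ HB)) e
        refine ⟨f, ?_, ?_⟩
        · intro x hx y hy hxy
          simp only [hHR, mem_filter, mem_univ, true_and] at hx hy
          have := hp x y hxy
          omega
        · intro w hw
          have hwT : w ∉ T := fun h => hw (hT1 h)
          have : f w ∉ HB := Equiv.extendSubtype_not_mem (p := (· ∈ T)) (q := (· ∈ HB)) e w hwT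
          simp only [hHB, mem_filter, mem_univ, true_and, not_lt] at this
          exact this
    | succ k hk ih =>
      intro hk1
      obtain ⟨S, hS1, hS2, hS3, hS4⟩ := ih (by omega)
      have hne : (univ \ S).Nonempty := by
        rw [← card_pos, card_sdiff_of_subset (subset_univ S), card_univ]
        omega
      obtain ⟨u, hu1, hu2⟩ := exists_max_image (univ \ S) (fun x => R.degree x) hne
      have huS : u ∉ S := by simpa using hu1
      refine ⟨insert u S, ?_, ?_, ?_, ?_⟩
      · rw [card_insert_of_notMem huS, hS1]
      · exact hS2.trans (subset_insert _ _)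
      · intro x hx y hy
        have hyS : y ∉ S := fun h => hy (mem_insert_of_mem h)
        rw [mem_insert] at hx
        rcases hx with rfl | hx
        · exact hu2 y (by simp [hyS])
        · exact hS3 x hx y hyS
      · refine step R B p q hp hq hpq S u huS (fun x hx => hS3 x hx u huS) ?_ hS4
        have : u ∉ HR := fun h => huS (hS2 h)
        simp only [hHR, mem_filter, mem_univ, true_and, not_lt] at this
        exact this
  have hle : HR.card ≤ Fintype.card V := by
    rw [← card_univ]; exact card_le_card (subset_univ _)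
  obtain ⟨S, hS1, -, -, f, hf⟩ := main (Fintype.card V) hle le_rfl
  have hSu : S = univ := (card_eq_iff_eq_univ S).mp hS1
  refine ⟨f, fun a b hab => hf.1 a (by simp [hSu]) b (by simp [hSu]) hab⟩

/-- The packing theorem: `θ(R) θ(B) < 2n` implies that `R` and `B` pack. -/
theorem pack (R B : SimpleGraph V) [DecidableRel R.Adj] [DecidableRel B.Adj]
    (h : ∀ x y u v : V, R.Adj x y → B.Adj u v →
      (R.degree x + R.degree y) * (B.degree u + B.degree v) < 2 * Fintype.card V) :
    ∃ σ : Equiv.Perm V, ∀ a b, R.Adj a b → ¬ B.Adj (σ a) (σ b) := by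
  classical
  by_cases hR : ∃ x y, R.Adj x y
  swap
  · push Not at hR
    exact ⟨1, fun a b hab => absurd hab (hR a b)⟩
  by_cases hB : ∃ x y, B.Adj x y
  swap
  · push Not at hB
    exact ⟨1, fun a b _ => hB _ _⟩
  obtain ⟨⟨x0, y0⟩, hx0, hmaxR⟩ := Set.exists_max_image {e : V × V | R.Adj e.1 e.2}
    (fun e => R.degree e.1 + R.degree e.2) (Set.toFinite _)
    (by obtain ⟨x, y, hxy⟩ := hR; exact ⟨(x, y), hxy⟩)
  obtain ⟨⟨u0, v0⟩, hu0, hmaxB⟩ := Set.exists_max_image {e : V × V | B.Adj e.1 e.2}
    (fun e => B.degree e.1 + B.degree e.2) (Set.toFinite _)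
    (by obtain ⟨x, y, hxy⟩ := hB; exact ⟨(x, y), hxy⟩)
  have hp : ∀ x y, R.Adj x y → R.degree x + R.degree y ≤ R.degree x0 + R.degree y0 :=
    fun x y hxy => hmaxR (x, y) hxy
  have hq : ∀ x y, B.Adj x y → B.degree x + B.degree y ≤ B.degree u0 + B.degree v0 :=
    fun x y hxy => hmaxB (x, y) hxy
  have hpq := h x0 y0 u0 v0 hx0 hu0
  rcases le_total (univ.filter (fun x => B.degree u0 + B.degree v0 < 2 * B.degree x)).card
      (univ.filter (fun x => R.degree x0 + R.degree y0 < 2 * R.degree x)).card with hle | hle
  · exact core R B _ _ hp hq hpq hle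
  · obtain ⟨σ, hσ⟩ := core B R _ _ hq hp (by rw [mul_comm]; exact hpq) hle
    refine ⟨σ.symm, fun a b hab hb => ?_⟩
    have := hσ _ _ hb
    simp only [Equiv.apply_symm_apply] at this
    exact this hab

end Pool.Agent.Helper199.Ore
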