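import Pool.Agent.Helper199.PmmsData

set_option autoImplicit false
set_option maxRecDepth 100000

namespace Pool.Agent.Helper199.Pmms

/-- the final test at a full allocation: `a b c` are the bit masks of the three bundles and
`x y z` are the values of the own bundle for the three agents -/
def leaf (a b c x y z : ℕ) : Bool :=
  Nat.blt x (tabN0 b) || Nat.blt x (tabN0 c) || Nat.blt y (tabN1 a) || Nat.blt y (tabN1 c) ||
    Nat.blt z (tabN2 a) || Nat.blt z (tabN2 b)

/-- run through all ways to give the goods of a list to the three agents -/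
def go : List (Fin 9) → ℕ → ℕ → ℕ → ℕ → ℕ → ℕ → Bool
  | [], a, b, c, x, y, z => leaf a b c x y z
  | g :: l, a, b, c, x, y, z =>
      go l (a + 2 ^ (g : ℕ)) b c (x + w0 g) y z && (go l a (b + 2 ^ (g : ℕ)) c x (y + w1 g) z &&
        go l a b (c + 2 ^ (g : ℕ)) x y (z + w2 g))

/-- the goods -/
def goods : List (Fin 9) := [0, 1, 2, 3, 4, 5, 6, 7, 8]

theorem go_goods : go goods 0 0 0 0 0 0 = true := by
  decide +kernel

/-- value of a Boolean set of goods -/
def bsum (w : Fin 9 → ℕ) (p : Fin 9 → Bool) : ℕ := (goods.map fun g => if p g then w g else 0).sum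

/-- correctness of the table of balanced splits at the mask `m` -/
def okT (w : Fin 9 → ℕ) (tT tN : ℕ → ℕ) (m : ℕ) : Bool :=
  Nat.ble (tN m) (bsum w fun g => (tT m).testBit g && !m.testBit g) &&
    Nat.ble (tN m) (bsum w fun g => !(tT m).testBit g && !m.testBit g)

theorem tab0 : ∀ m < 512, okT w0 tabT0 tabN0 m = true := by decide +kernel
theorem tab1 : ∀ m < 512, okT w1 tabT1 tabN1 m = true := by decide +kernel
theorem tab2 : ∀ m < 512, okT w2 tabT2 tabN2 m = true := by decide +kernel

/-- bit mask of a Boolean set of goods -/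
def mb (B : Fin 9 → Bool) : ℕ := (goods.map fun g => if B g then 2 ^ (g : ℕ) else 0).sum

theorem mb_all : ∀ b0 b1 b2 b3 b4 b5 b6 b7 b8 : Bool,
    mb ![b0, b1, b2, b3, b4, b5, b6, b7, b8] < 512 ∧
      ∀ g : Fin 9, (mb ![b0, b1, b2, b3, b4, b5, b6, b7, b8]).testBit g =
        ![b0, b1, b2, b3, b4, b5, b6, b7, b8] g := by
  decide +kernel

theorem eta9 {α : Type} (B : Fin 9 → α) : B = ![B 0, B 1, B 2, B 3, B 4, B 5, B 6, B 7, B 8] := by
  funext g
  fin_cases g <;> rfl

theorem mb_lt (B : Fin 9 → Bool) : mb B < 512 := by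
  rw [eta9 B]; exact (mb_all _ _ _ _ _ _ _ _ _).1

theorem mb_testBit (B : Fin 9 → Bool) (g : Fin 9) : (mb B).testBit g = B g := by
  rw [eta9 B]; exact (mb_all _ _ _ _ _ _ _ _ _).2 g

/-- the bit mask of the part of a list that agent `i` gets -/
def mk (A : Fin 9 → Fin 3) (i : Fin 3) (l : List (Fin 9)) : ℕ :=
  (l.map fun g => if A g = i then 2 ^ (g : ℕ) else 0).sum

/-- the value of the part of a list that agent `i` gets -/
def vl (w : Fin 9 → ℕ) (A : Fin 9 → Fin 3) (i : Fin 3) (l : List (Fin 9)) : ℕ :=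
  (l.map fun g => if A g = i then w g else 0).sum

theorem mk_eq_mb (A : Fin 9 → Fin 3) (i : Fin 3) : mk A i goods = mb (fun g => decide (A g = i)) := by
  unfold mk mb
  congr 1
  refine List.map_congr_left fun g _ => ?_
  simp

theorem go_sound (A : Fin 9 → Fin 3) (l : List (Fin 9)) : ∀ a b c x y z : ℕ,
    go l a b c x y z = true →
      leaf (a + mk A 0 l) (b + mk A 1 l) (c + mk A 2 l) (x + vl w0 A 0 l) (y + vl w1 A 1 l)
        (z + vl w2 A 2 l) = true := by
  induction l with
  | nil => intro a b c x y z h; simpa [mk, vl, go] using h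
  | cons g l ih =>
    intro a b c x y z h
    simp only [go, Bool.and_eq_true] at h
    obtain ⟨h0, h1, h2⟩ := h
    have hA : A g = 0 ∨ A g = 1 ∨ A g = 2 := by
      generalize A g = t
      revert t; decide
    rcases hA with hA | hA | hA
    · have := ih _ _ _ _ _ _ h0
      simpa [mk, vl, hA, add_assoc] using this
    · have := ih _ _ _ _ _ _ h1
      simpa [mk, vl, hA, add_assoc] using this
    · have := ih _ _ _ _ _ _ h2
      simpa [mk, vl, hA, add_assoc] using this

theorem sum_goods (f : Fin 9 → ℕ) : (goods.map f).sum = ∑ g, f g := by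
  rw [Fin.sum_univ_def]
  rfl

theorem viol (w : Fin 9 → ℕ) (tT tN : ℕ → ℕ) (htab : ∀ m < 512, okT w tT tN m = true)
    (A : Fin 9 → Fin 3) (i j k : Fin 3) (hijk : ∀ x : Fin 3, x ≠ k ↔ x = i ∨ x = j)
    (h : vl w A i goods < tN (mk A k goods)) :
    ∃ T ⊆ Finset.univ.filter (fun g => A g = i ∨ A g = j),
      (∑ g ∈ Finset.univ.filter (fun g => A g = i), (w g : ℝ)) <
        min (∑ g ∈ T, (w g : ℝ))
          (∑ g ∈ (Finset.univ.filter (fun g => A g = i ∨ A g = j)) \ T, (w g : ℝ)) := by
  set m := mk A k goods with hm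
  have hmlt : m < 512 := by rw [hm, mk_eq_mb]; exact mb_lt _
  have hbit : ∀ g : Fin 9, m.testBit g = decide (A g = k) := by
    intro g; rw [hm, mk_eq_mb, mb_testBit]
  have ht := htab m hmlt
  simp only [okT, Bool.and_eq_true, Nat.ble_eq] at ht
  obtain ⟨h1, h2⟩ := ht
  refine ⟨Finset.univ.filter (fun g : Fin 9 => ((tT m).testBit g = true) ∧ A g ≠ k), ?_, ?_⟩
  · intro g hg
    simp only [Finset.mem_filter, Finset.mem_univ, true_and] at hg ⊢
    exact (hijk _).1 hg.2
  · have e1 : (∑ g ∈ Finset.univ.filter (fun g : Fin 9 => ((tT m).testBit g = true) ∧ A g ≠ k), (w g : ℝ))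
        = ((bsum w fun g => (tT m).testBit g && !m.testBit g : ℕ) : ℝ) := by
      unfold bsum
      rw [sum_goods, Finset.sum_filter]
      push_cast
      refine Finset.sum_congr rfl fun g _ => ?_
      rw [hbit g]
      simp
    have e2 : (∑ g ∈ (Finset.univ.filter (fun g => A g = i ∨ A g = j)) \
          Finset.univ.filter (fun g : Fin 9 => ((tT m).testBit g = true) ∧ A g ≠ k), (w g : ℝ))
        = ((bsum w fun g => !(tT m).testBit g && !m.testBit g : ℕ) : ℝ) := by
      have : (Finset.univ.filter (fun g => A g = i ∨ A g = j)) \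
          Finset.univ.filter (fun g : Fin 9 => ((tT m).testBit g = true) ∧ A g ≠ k) =
          Finset.univ.filter (fun g : Fin 9 => ¬ ((tT m).testBit g = true) ∧ A g ≠ k) := by
        ext g
        simp only [Finset.mem_sdiff, Finset.mem_filter, Finset.mem_univ, true_and]
        rw [← hijk]
        tauto
      rw [this]
      unfold bsum
      rw [sum_goods, Finset.sum_filter]
      push_cast
      refine Finset.sum_congr rfl fun g _ => ?_
      rw [hbit g]
      simp
    have e3 : (∑ g ∈ Finset.univ.filter (fun g => A g = i), (w g : ℝ)) = ((vl w A i goods : ℕ) : ℝ) := by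
      unfold vl
      rw [sum_goods, Finset.sum_filter]
      push_cast
      rfl
    rw [e1, e2, e3]
    exact lt_min (by exact_mod_cast h.trans_le h1) (by exact_mod_cast h.trans_le h2)

/-- every allocation of the nine goods violates the pairwise maximin share condition for some
agent `i` towards some agent `j` -/
theorem no_pmms (A : Fin 9 → Fin 3) : ∃ i j : Fin 3, i ≠ j ∧
    ∃ T ⊆ Finset.univ.filter (fun g => A g = i ∨ A g = j),
      (∑ g ∈ Finset.univ.filter (fun g => A g = i), ((![w0, w1, w2] i g : ℕ) : ℝ)) <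
        min (∑ g ∈ T, ((![w0, w1, w2] i g : ℕ) : ℝ))
          (∑ g ∈ (Finset.univ.filter (fun g => A g = i ∨ A g = j)) \ T,
            ((![w0, w1, w2] i g : ℕ) : ℝ)) := by
  have h := go_sound A goods 0 0 0 0 0 0 go_goods
  simp only [zero_add, leaf, Bool.or_eq_true, Nat.blt_eq] at h
  rcases h with ((((h | h) | h) | h) | h) | h
  · exact ⟨0, 2, by decide, viol w0 _ _ tab0 A 0 2 1 (by decide) h⟩
  · exact ⟨0, 1, by decide, viol w0 _ _ tab0 A 0 1 2 (by decide) h⟩
  · exact ⟨1, 2, by decide, viol w1 _ _ tab1 A 1 2 0 (by decide) h⟩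
  · exact ⟨1, 0, by decide, viol w1 _ _ tab1 A 1 0 2 (by decide) h⟩
  · exact ⟨2, 1, by decide, viol w2 _ _ tab2 A 2 1 0 (by decide) h⟩
  · exact ⟨2, 0, by decide, viol w2 _ _ tab2 A 2 0 1 (by decide) h⟩

end Pool.Agent.Helper199.Pmms
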