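import Mathlib

set_option autoImplicit false
open CategoryTheory

namespace Pool.Agent.Helper199.RepDim

/-- A nonzero invariant subspace of a simple representation is everything. -/
theorem simple_top {G : Type} [Group G] (V : FDRep ℂ G) [Simple V] (W : Submodule ℂ V)
    (hW : ∀ g, ∀ w ∈ W, V.ρ g w ∈ W) (h0 : W ≠ ⊥) : W = ⊤ := by
  let ρW : Representation ℂ G W :=
    { toFun := fun g => (V.ρ g).restrict (hW g)
      map_one' := by ext w; simp
      map_mul' := fun g h => by ext w; simp }
  let f : FDRep.of ρW ⟶ V :=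
    { hom := InducedCategory.homMk (ModuleCat.ofHom W.subtype)
      comm := fun g => by ext w; rfl }
  have hinj : Function.Injective f.hom.hom.hom := W.injective_subtype
  have hmono : Mono f := by
    apply ConcreteCategory.mono_of_injective
    exact hinj
  have hne : f ≠ 0 := by
    intro h
    apply h0
    rw [Submodule.eq_bot_iff]
    intro w hw
    have h1 : f.hom.hom.hom = 0 := congrArg (fun k => k.hom.hom.hom) h
    have h2 : f.hom.hom.hom ⟨w, hw⟩ = 0 := by rw [h1]; rfl
    exact h2
  have hiso : IsIso f := isIso_of_mono_of_nonzero hne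
  rw [Submodule.eq_top_iff']
  intro v
  have h3 : f.hom.hom.hom ((inv f).hom.hom.hom v) = v := by
    have : (inv f ≫ f).hom.hom.hom v = (𝟙 V : V ⟶ V).hom.hom.hom v := by rw [IsIso.inv_hom_id]
    exact this
  rw [← h3]
  exact (((inv f).hom.hom.hom v) : W).2


/-- Dimension bound from a common eigenvector of a subgroup. -/
theorem finrank_le_index {G : Type} [Group G] [Finite G] (V : FDRep ℂ G) [Simple V]
    (H : Subgroup G) (w : V) (hw : w ≠ 0) (hH : ∀ h ∈ H, ∃ c : ℂ, V.ρ h w = c • w) :
    Module.finrank ℂ V ≤ H.index := by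
  classical
  have := Fintype.ofFinite (G ⧸ H)
  let F : G ⧸ H → V := fun q => V.ρ q.out w
  have htop : Submodule.span ℂ (Set.range F) = ⊤ := by
    apply simple_top V
    · intro g v hv
      induction hv using Submodule.span_induction with
      | mem x hx =>
        obtain ⟨q, rfl⟩ := hx
        have h1 : (g * q.out)⁻¹ * (QuotientGroup.mk (g * q.out) : G ⧸ H).out ∈ H := by
          rw [← QuotientGroup.eq]; simp
        have h2 : ((QuotientGroup.mk (g * q.out) : G ⧸ H).out)⁻¹ * (g * q.out) ∈ H := by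
          have := H.inv_mem h1
          simpa [mul_assoc] using this
        obtain ⟨c, hc⟩ := hH _ h2
        have h3 : V.ρ g (F q) = c • F (QuotientGroup.mk (g * q.out)) := by
          have e : g * q.out = (QuotientGroup.mk (g * q.out) : G ⧸ H).out *
              (((QuotientGroup.mk (g * q.out) : G ⧸ H).out)⁻¹ * (g * q.out)) := by group
          calc V.ρ g (F q) = V.ρ (g * q.out) w := by rw [map_mul]; rfl
            _ = V.ρ ((QuotientGroup.mk (g * q.out) : G ⧸ H).out *
              (((QuotientGroup.mk (g * q.out) : G ⧸ H).out)⁻¹ * (g * q.out))) w := by rw [← e]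
            _ = V.ρ (QuotientGroup.mk (g * q.out) : G ⧸ H).out (c • w) := by
              rw [map_mul, Module.End.mul_apply, hc]
            _ = _ := by rw [map_smul]
        rw [h3]
        exact Submodule.smul_mem _ _ (Submodule.subset_span ⟨_, rfl⟩)
      | zero => simp
      | add x y _ _ hx hy => rw [map_add]; exact Submodule.add_mem _ hx hy
      | smul a x _ hx => rw [map_smul]; exact Submodule.smul_mem _ _ hx
    · intro h
      rw [Submodule.span_eq_bot] at h
      have h1 : F (QuotientGroup.mk 1) = 0 := h _ ⟨_, rfl⟩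
      apply hw
      have h2 : V.ρ ((QuotientGroup.mk 1 : G ⧸ H).out)⁻¹ (F (QuotientGroup.mk 1)) = w := by
        change V.ρ ((QuotientGroup.mk 1 : G ⧸ H).out)⁻¹ (V.ρ (QuotientGroup.mk 1 : G ⧸ H).out w) = w
        rw [← Module.End.mul_apply, ← map_mul, inv_mul_cancel, map_one]
        rfl
      rw [h1, map_zero] at h2
      exact h2.symm
  have h1 : Module.finrank ℂ V = (Set.range F).finrank ℂ := by
    rw [Set.finrank, htop, finrank_top]
  rw [h1, Subgroup.index, Nat.card_eq_fintype_card]
  exact finrank_range_le_card F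

/-- Irreducible representations give simple objects. -/
theorem simple_of_irred {G : Type} [Group G] [Finite G] {X : Type} [AddCommGroup X] [Module ℂ X]
    [FiniteDimensional ℂ X] [Nontrivial X] (ρ : Representation ℂ G X)
    (h : ∀ W : Submodule ℂ X, (∀ g, ∀ w ∈ W, ρ g w ∈ W) → W = ⊥ ∨ W = ⊤) : Simple (FDRep.of ρ) := by
  have : NeZero (Nat.card G : ℂ) := ⟨by exact_mod_cast Nat.card_pos.ne'⟩
  rw [FDRep.simple_iff_end_is_rank_one]
  rw [finrank_eq_one_iff_of_nonzero' (𝟙 (FDRep.of ρ))]
  · intro f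
    let L : X →ₗ[ℂ] X := f.hom.hom.hom
    have hL : ∀ g v, L (ρ g v) = ρ g (L v) := by
      intro g v
      have h1 := f.comm g
      have h2 := congrArg (fun k => k.hom.hom v) h1
      exact h2
    obtain ⟨c, hc⟩ := Module.End.exists_eigenvalue L
    have hW := h (Module.End.eigenspace L c) (by
      intro g w hw
      rw [Module.End.mem_eigenspace_iff] at hw ⊢
      rw [hL, hw, map_smul])
    have hne : Module.End.eigenspace L c ≠ ⊥ := hc
    have htop := hW.resolve_left hne
    refine ⟨c, ?_⟩
    apply Action.Hom.ext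
    apply InducedCategory.hom_ext
    apply ModuleCat.hom_ext
    apply LinearMap.ext
    intro v
    have hv : v ∈ Module.End.eigenspace L c := by rw [htop]; trivial
    rw [Module.End.mem_eigenspace_iff] at hv
    exact hv.symm
  · intro h
    have h1 : (LinearMap.id : X →ₗ[ℂ] X) = 0 :=
      congrArg (fun k => k.hom.hom.hom) h
    obtain ⟨x, hx⟩ := exists_ne (0 : X)
    exact hx (LinearMap.congr_fun h1 x)


/-- Simultaneous eigenvectors for distinct characters are linearly independent. -/
theorem linInd {A : Type} [CommGroup A] [Fintype A] {X : Type} [AddCommGroup X] [Module ℂ X]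
    (r : A → (X →ₗ[ℂ] X)) {J : Type} [Fintype J] (χ : J → (A →* ℂ)) (hχ : Function.Injective χ)
    (w : J → X) (hw0 : ∀ j, w j ≠ 0) (hw : ∀ j a, r a (w j) = χ j a • w j) :
    LinearIndependent ℂ w := by
  classical
  rw [Fintype.linearIndependent_iff]
  intro c hc i
  let T : X →ₗ[ℂ] X := ∑ a, χ i a⁻¹ • r a
  have hT : ∀ j, T (w j) = (∑ a, χ i a⁻¹ * χ j a) • w j := by
    intro j
    simp only [T, LinearMap.sum_apply, LinearMap.smul_apply, hw, Finset.sum_smul, smul_smul]
  have hTi : T (w i) = (Fintype.card A : ℂ) • w i := by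
    rw [hT]
    congr 1
    have : ∀ a, χ i a⁻¹ * χ i a = 1 := fun a => by rw [← map_mul, inv_mul_cancel, map_one]
    rw [Finset.sum_congr rfl (fun a _ => this a)]
    simp
  have hTj : ∀ j, j ≠ i → T (w j) = 0 := by
    intro j hj
    rw [hT]
    let f : A →* ℂ := (χ i).comp (invMonoidHom) * χ j
    have hf : f ≠ 1 := by
      intro h
      apply hj
      apply hχ
      ext a
      have h1 : f a = 1 := by rw [h]; rfl
      have h2 : χ i a⁻¹ * χ j a = 1 := h1
      have h3 : χ i a * χ i a⁻¹ = 1 := by rw [← map_mul, mul_inv_cancel, map_one]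
      calc χ j a = (χ i a * χ i a⁻¹) * χ j a := by rw [h3, one_mul]
        _ = χ i a * (χ i a⁻¹ * χ j a) := by ring
        _ = χ i a := by rw [h2, mul_one]
    have h0 := sum_hom_units_eq_zero f hf
    have h1 : ∑ a, χ i a⁻¹ * χ j a = 0 := h0
    rw [h1, zero_smul]
  have h1 : T (∑ j, c j • w j) = 0 := by rw [hc, map_zero]
  rw [map_sum, Finset.sum_eq_single i] at h1
  · rw [map_smul, hTi, smul_smul] at h1
    have h2 := (smul_eq_zero.1 h1).resolve_right (hw0 i)
    have h3 : (Fintype.card A : ℂ) ≠ 0 := by exact_mod_cast Fintype.card_ne_zero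
    exact (mul_eq_zero.1 h2).resolve_right h3
  · intro j _ hj
    rw [map_smul, hTj j hj, smul_zero]
  · intro h; exact absurd (Finset.mem_univ i) h

/-- Existence of an irreducible representation of large dimension from a character of an abelian
subgroup with many conjugates. -/
theorem exists_simple {P : Type} [Group P] [Finite P] {A : Type} [CommGroup A] [Fintype A]
    (n : A →* P) (hn : Function.Injective n) (ν : A →* ℂ) {J : Type} [Fintype J] (g : J → P)
    (θ : J → A → A) (hθ : ∀ j a, g j * n a * (g j)⁻¹ = n (θ j a))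
    (hdist : ∀ j j', (∀ a, ν (θ j a) = ν (θ j' a)) → j = j') :
    ∃ V : FDRep ℂ P, Simple V ∧ Fintype.card J ≤ Module.finrank ℂ V := by
  classical
  have := Fintype.ofFinite P
  have : NeZero (Nat.card P : ℂ) := ⟨by exact_mod_cast Nat.card_pos.ne'⟩
  let R := MonoidAlgebra ℂ P
  let δ : P →* R := MonoidAlgebra.of ℂ P
  let e : R := ∑ a, ν a⁻¹ • δ (n a)
  have he : ∀ b, δ (n b) * e = ν b • e := by
    intro b
    change δ (n b) * (∑ a, ν a⁻¹ • δ (n a)) = ν b • (∑ a, ν a⁻¹ • δ (n a))
    rw [Finset.mul_sum, Finset.smul_sum]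
    rw [← Equiv.sum_comp (Equiv.mulLeft b⁻¹)]
    apply Finset.sum_congr rfl
    intro a _
    have e1 : ((Equiv.mulLeft b⁻¹) a) = b⁻¹ * a := rfl
    rw [e1]
    have e2 : b * (b⁻¹ * a) = a := by group
    have e3 : (b⁻¹ * a)⁻¹ = b * a⁻¹ := by rw [mul_inv_rev, inv_inv, mul_comm]
    rw [mul_smul_comm, ← map_mul, ← map_mul, e2, e3, map_mul, smul_smul]
  have he0 : e ≠ 0 := by
    intro h
    have h1 : e.coeff 1 = 0 := by rw [h]; rfl
    have h2 : e.coeff 1 = ∑ a, ν a⁻¹ * (if n a = 1 then 1 else 0) := by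
      change (∑ a, ν a⁻¹ • δ (n a)).coeff 1 = _
      rw [MonoidAlgebra.coeff_sum, Finsupp.finsetSum_apply]
      apply Finset.sum_congr rfl
      intro a _
      rw [MonoidAlgebra.coeff_smul_apply, smul_eq_mul]
      congr 1
      change (MonoidAlgebra.single (n a) (1 : ℂ)).coeff 1 = _
      rw [MonoidAlgebra.coeff_single, Finsupp.single_apply]
    rw [h1, Finset.sum_eq_single 1] at h2
    · simp at h2
    · intro a _ ha
      have : n a ≠ 1 := fun h => ha (hn (by rw [h, map_one]))
      rw [if_neg this, mul_zero]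
    · intro h; exact absurd (Finset.mem_univ _) h
  obtain ⟨m, hm, s, hs, hes⟩ : ∃ m : Submodule R R, IsSimpleModule R m ∧ ∃ s ∈ m, e * s ≠ 0 := by
    by_contra hcon
    push Not at hcon
    apply he0
    have h1 : (1 : R) ∈ (⊤ : Submodule R R) := trivial
    rw [← IsSemisimpleModule.sSup_simples_eq_top R R, sSup_eq_iSup'] at h1
    have h2 : e * 1 = 0 := by
      refine Submodule.iSup_induction _ (motive := fun x => e * x = 0) h1 ?_ ?_ ?_
      · intro i x hx
        exact hcon i.1 i.2 x hx
      · rw [mul_zero]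
      · intro x y hx hy; rw [mul_add, hx, hy, add_zero]
    rwa [mul_one] at h2
  let X : Submodule ℂ R := m.restrictScalars ℂ
  have hmem : ∀ (a : R) (x : R), x ∈ X → a * x ∈ X := fun a x hx => m.smul_mem a hx
  let ρ : Representation ℂ P X :=
    { toFun := fun g => (LinearMap.mulLeft ℂ (δ g)).restrict (fun x hx => hmem (δ g) x hx)
      map_one' := by ext x; simp
      map_mul' := fun g h => by
        apply LinearMap.ext
        intro x
        apply Subtype.ext
        change δ (g * h) * (x : R) = δ g * (δ h * (x : R))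
        rw [map_mul, mul_assoc] }
  have hρ : ∀ g (x : X), ((ρ g x : X) : R) = δ g * (x : R) := fun g x => rfl
  let w : X := ⟨e * s, hmem e s hs⟩
  have hw : w ≠ 0 := by
    intro h
    exact hes (congrArg Subtype.val h)
  have hnt : Nontrivial X := ⟨⟨w, 0, hw⟩⟩
  have hsimple : Simple (FDRep.of ρ) := by
    apply simple_of_irred
    intro W hW
    -- the corresponding left ideal
    have hsm : ∀ (r : R) (x : X) (hx : x ∈ W), ∃ y ∈ W, (y : R) = r * (x : R) := by
      intro r x hx
      induction r using MonoidAlgebra.induction_linear with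
      | zero => exact ⟨0, W.zero_mem, by simp⟩
      | add a b ha hb =>
        obtain ⟨y, hy, hy'⟩ := ha
        obtain ⟨z, hz, hz'⟩ := hb
        exact ⟨y + z, W.add_mem hy hz, by simp [hy', hz', add_mul]⟩
      | single g c =>
        refine ⟨c • ρ g x, W.smul_mem _ (hW g x hx), ?_⟩
        have h1 : (MonoidAlgebra.single g c : MonoidAlgebra ℂ P) = c • δ g := by
          change _ = c • (MonoidAlgebra.single g (1 : ℂ) : MonoidAlgebra ℂ P)
          rw [MonoidAlgebra.smul_single, smul_eq_mul, mul_one]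
        rw [h1]
        change c • (δ g * (x : R)) = (c • δ g) * (x : R)
        rw [smul_mul_assoc]
    let m' : Submodule R R :=
      { carrier := {x | ∃ y ∈ W, (y : R) = x}
        add_mem' := by
          rintro _ _ ⟨y, hy, rfl⟩ ⟨z, hz, rfl⟩
          exact ⟨y + z, W.add_mem hy hz, rfl⟩
        zero_mem' := ⟨0, W.zero_mem, rfl⟩
        smul_mem' := by
          rintro r _ ⟨y, hy, rfl⟩
          exact hsm r y hy }
    have hm' : m' ≤ m := by
      rintro _ ⟨y, hy, rfl⟩
      exact y.2
    have hatom : IsAtom m := isSimpleModule_iff_isAtom.1 hm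
    rcases hatom.le_iff.1 hm' with h | h
    · left
      rw [Submodule.eq_bot_iff]
      intro x hx
      have : (x : R) ∈ m' := ⟨x, hx, rfl⟩
      rw [h, Submodule.mem_bot] at this
      exact Subtype.ext this
    · right
      rw [Submodule.eq_top_iff']
      intro x
      have h1 : (x : R) ∈ m' := by rw [h]; exact x.2
      obtain ⟨y, hy, hy'⟩ := h1
      have : y = x := Subtype.ext hy'
      rwa [← this]
  refine ⟨FDRep.of ρ, hsimple, ?_⟩
  have hθmul : ∀ j a b, θ j (a * b) = θ j a * θ j b := by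
    intro j a b
    apply hn
    rw [← hθ, map_mul, map_mul, ← hθ, ← hθ]
    group
  have hθone : ∀ j, θ j 1 = 1 := by
    intro j
    apply hn
    rw [← hθ, map_one]
    group
  let χ : J → (A →* ℂ) := fun j =>
    { toFun := fun a => ν (θ j a)
      map_one' := by rw [hθone, map_one]
      map_mul' := fun a b => by rw [hθmul, map_mul] }
  have hχ : Function.Injective χ := by
    intro j j' h
    apply hdist
    intro a
    exact DFunLike.congr_fun h a
  have hli := linInd (fun a => ρ (n a)) χ hχ (fun j => ρ (g j)⁻¹ w) (by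
      intro j h
      apply hw
      have h1 : ρ (g j) (ρ (g j)⁻¹ w) = w := by
        rw [← Module.End.mul_apply, ← map_mul, mul_inv_cancel, map_one]; rfl
      rw [h, map_zero] at h1
      exact h1.symm) (by
      intro j a
      have h1 : ρ (n a) (ρ (g j)⁻¹ w) = ρ (g j)⁻¹ (ρ (n (θ j a)) w) := by
        rw [← Module.End.mul_apply, ← map_mul, ← Module.End.mul_apply, ← map_mul, ← hθ]
        congr 2
        group
      rw [h1]
      have h2 : ρ (n (θ j a)) w = ν (θ j a) • w := by
        apply Subtype.ext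
        rw [hρ]
        change δ (n (θ j a)) * (e * s) = ν (θ j a) • (e * s)
        rw [← mul_assoc, he, smul_mul_assoc]
      rw [h2, map_smul]
      rfl)
  exact hli.fintype_card_le_finrank


/-- Every finite dimensional nonzero invariant subspace contains an eigenvector. -/
theorem exists_eig {X : Type} [AddCommGroup X] [Module ℂ X] [FiniteDimensional ℂ X]
    (T : X →ₗ[ℂ] X) (W : Submodule ℂ X) (hW : ∀ w ∈ W, T w ∈ W) (h0 : W ≠ ⊥) :
    ∃ c : ℂ, ∃ w ∈ W, w ≠ 0 ∧ T w = c • w := by
  have hnt : Nontrivial W := Submodule.nontrivial_iff_ne_bot.2 h0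
  obtain ⟨c, hc⟩ := Module.End.exists_eigenvalue (T.restrict hW)
  obtain ⟨w, hw⟩ := hc.exists_hasEigenvector
  refine ⟨c, w, w.2, fun h => hw.2 (Subtype.ext h), ?_⟩
  have := hw.apply_eq_smul
  exact congrArg Subtype.val this

/-- A commuting family has a common eigenvector. -/
theorem exists_char {G : Type} [Group G] (V : FDRep ℂ G) (hV : ∃ v : V, v ≠ 0)
    {A : Type} [CommGroup A] [Finite A] (n : A →* G) :
    ∃ ν : A →* ℂ, ∃ v : V, v ≠ 0 ∧ ∀ a, V.ρ (n a) v = ν a • v := by
  classical
  have := Fintype.ofFinite A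
  have key : ∀ S : Finset A, ∃ W : Submodule ℂ V, W ≠ ⊥ ∧ (∀ b, ∀ w ∈ W, V.ρ (n b) w ∈ W) ∧
      ∀ a ∈ S, ∃ c : ℂ, ∀ w ∈ W, V.ρ (n a) w = c • w := by
    intro S
    induction S using Finset.induction_on with
    | empty =>
      refine ⟨⊤, ?_, fun _ _ _ => trivial, by simp⟩
      obtain ⟨v, hv⟩ := hV
      intro h
      have : v ∈ (⊥ : Submodule ℂ V) := by rw [← h]; trivial
      exact hv this
    | insert a S _ ih =>
      obtain ⟨W, hW0, hWi, hWS⟩ := ih
      obtain ⟨c, w, hw, hw0, hwc⟩ := exists_eig (V.ρ (n a)) W (hWi a) hW0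
      refine ⟨W ⊓ LinearMap.ker (V.ρ (n a) - c • LinearMap.id), ?_, ?_, ?_⟩
      · intro h
        have : w ∈ W ⊓ LinearMap.ker (V.ρ (n a) - c • LinearMap.id) :=
          ⟨hw, by rw [SetLike.mem_coe, LinearMap.mem_ker, LinearMap.sub_apply, LinearMap.smul_apply,
            LinearMap.id_apply, hwc, sub_self]⟩
        rw [h] at this
        exact hw0 this
      · rintro b v ⟨hv1, hv2⟩
        refine ⟨hWi b v hv1, ?_⟩
        rw [SetLike.mem_coe, LinearMap.mem_ker, LinearMap.sub_apply, LinearMap.smul_apply,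
          LinearMap.id_apply, sub_eq_zero] at hv2 ⊢
        rw [← Module.End.mul_apply, ← map_mul, ← map_mul, mul_comm, map_mul, map_mul,
          Module.End.mul_apply, hv2, map_smul]
      · intro x hx
        rw [Finset.mem_insert] at hx
        rcases hx with rfl | hx
        · refine ⟨c, ?_⟩
          rintro v ⟨_, hv2⟩
          rw [SetLike.mem_coe, LinearMap.mem_ker, LinearMap.sub_apply, LinearMap.smul_apply,
            LinearMap.id_apply, sub_eq_zero] at hv2
          exact hv2
        · obtain ⟨d, hd⟩ := hWS x hx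
          exact ⟨d, fun v hv => hd v hv.1⟩
  obtain ⟨W, hW0, _, hWS⟩ := key Finset.univ
  obtain ⟨v, hv, hv0⟩ := Submodule.exists_mem_ne_zero_of_ne_bot hW0
  choose c hc using fun a => hWS a (Finset.mem_univ a)
  have hc' : ∀ a, V.ρ (n a) v = c a • v := fun a => hc a v hv
  refine ⟨⟨⟨c, ?_⟩, ?_⟩, v, hv0, hc'⟩
  · have h1 := hc' 1
    rw [map_one, map_one] at h1
    have h2 : (c 1 - 1) • v = 0 := by
      rw [sub_smul, ← h1, one_smul]; exact sub_self v
    exact sub_eq_zero.1 ((smul_eq_zero.1 h2).resolve_right hv0)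
  · intro a b
    have h1 := hc' (a * b)
    rw [map_mul, map_mul, Module.End.mul_apply, hc' b, map_smul, hc' a, smul_smul] at h1
    have h2 : (c (a * b) - c a * c b) • v = 0 := by
      rw [sub_smul, ← h1, mul_comm]; exact sub_self _
    exact sub_eq_zero.1 ((smul_eq_zero.1 h2).resolve_right hv0)

/-- The stabiliser of the line spanned by a nonzero vector. -/
def lineStab {G : Type} [Group G] (V : FDRep ℂ G) (w : V) (hw : w ≠ 0) : Subgroup G where
  carrier := {g | ∃ c : ℂ, V.ρ g w = c • w}
  one_mem' := ⟨1, by rw [map_one, one_smul]; rfl⟩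
  mul_mem' := by
    rintro a b ⟨c, hc⟩ ⟨d, hd⟩
    exact ⟨d * c, by rw [map_mul, Module.End.mul_apply, hd, map_smul, hc, smul_smul]⟩
  inv_mem' := by
    rintro a ⟨c, hc⟩
    have h1 : V.ρ a⁻¹ (V.ρ a w) = w := by
      rw [← Module.End.mul_apply, ← map_mul, inv_mul_cancel, map_one]; rfl
    rw [hc, map_smul] at h1
    have hc0 : c ≠ 0 := by
      rintro rfl
      rw [zero_smul] at h1
      exact hw h1.symm
    refine ⟨c⁻¹, ?_⟩
    calc V.ρ a⁻¹ w = (c⁻¹ * c) • V.ρ a⁻¹ w := by rw [inv_mul_cancel₀ hc0, one_smul]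
      _ = c⁻¹ • (c • V.ρ a⁻¹ w) := by rw [smul_smul]
      _ = c⁻¹ • w := by rw [h1]

theorem bound {G : Type} [Group G] [Finite G] (V : FDRep ℂ G) [Simple V] (hV : ∃ v : V, v ≠ 0)
    {A : Type} [CommGroup A] [Finite A] (n : A →* G) (hn : Function.Injective n)
    (hs : ∀ ν : A →* ℂ, ∃ s : G, ∃ θ : A → A, (∀ a, s * n a * s⁻¹ = n (θ a)) ∧
      (∀ a, ν (θ a) = ν a) ∧ s ∉ n.range ∧ s * s ∉ n.range) :
    3 * Nat.card A * Module.finrank ℂ V ≤ Nat.card G := by
  obtain ⟨ν, v, hv0, hv⟩ := exists_char V hV n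
  obtain ⟨s, θ, hθ, hνθ, hs1, hs2⟩ := hs ν
  let W : Submodule ℂ V := ⨅ a, LinearMap.ker (V.ρ (n a) - ν a • LinearMap.id)
  have hmem : ∀ w, w ∈ W ↔ ∀ a, V.ρ (n a) w = ν a • w := by
    intro w
    simp only [W, Submodule.mem_iInf, LinearMap.mem_ker, LinearMap.sub_apply,
      LinearMap.smul_apply, LinearMap.id_apply, sub_eq_zero]
  have hW0 : W ≠ ⊥ := by
    intro h
    have : v ∈ W := (hmem v).2 hv
    rw [h] at this
    exact hv0 this
  have hWs : ∀ w ∈ W, V.ρ s⁻¹ w ∈ W := by
    intro w hw
    rw [hmem] at hw ⊢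
    intro a
    have h1 : n a * s⁻¹ = s⁻¹ * n (θ a) := by rw [← hθ]; group
    rw [← Module.End.mul_apply, ← map_mul, h1, map_mul, Module.End.mul_apply, hw, map_smul, hνθ]
  obtain ⟨c, w, hw, hw0, hwc⟩ := exists_eig (V.ρ s⁻¹) W hWs hW0
  let H := lineStab V w hw0
  have hHn : ∀ a, n a ∈ H := fun a => ⟨ν a, (hmem w).1 hw a⟩
  have hHs' : s⁻¹ ∈ H := ⟨c, hwc⟩
  have hHs : s ∈ H := by simpa using H.inv_mem hHs'
  have hidx := finrank_le_index V H w hw0 (fun h hh => hh)
  have hcard : 3 * Nat.card A ≤ Nat.card H := by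
    let F : Fin 3 × A → H := fun p =>
      if p.1 = 0 then ⟨n p.2, hHn _⟩ else if p.1 = 1 then ⟨s * n p.2, H.mul_mem hHs (hHn _)⟩
        else ⟨s * s * n p.2, H.mul_mem (H.mul_mem hHs hHs) (hHn _)⟩
    have hF : Function.Injective F := by
      have k1 : ∀ a b, n a ≠ s * n b := by
        intro a b h
        apply hs1
        refine ⟨a * b⁻¹, ?_⟩
        rw [map_mul, h, map_inv]; group
      have k2 : ∀ a b, n a ≠ s * s * n b := by
        intro a b h
        apply hs2
        refine ⟨a * b⁻¹, ?_⟩
        rw [map_mul, h, map_inv]; group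
      have k3 : ∀ a b, s * n a ≠ s * s * n b := by
        intro a b h
        rw [mul_assoc] at h
        exact k1 a b (mul_left_cancel h)
      rintro ⟨i, a⟩ ⟨j, b⟩ h
      have hv : (F (i, a) : G) = (F (j, b) : G) := congrArg Subtype.val h
      fin_cases i <;> fin_cases j <;> simp [F] at hv ⊢
      · exact hn hv
      · exact absurd hv (k1 a b)
      · exact absurd hv (k2 a b)
      · exact absurd hv.symm (k1 b a)
      · exact hn hv
      · exact absurd hv (k3 a b)
      · exact absurd hv.symm (k2 b a)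
      · exact absurd hv.symm (k3 b a)
      · exact hn hv
    have := Nat.card_le_card_of_injective F hF
    rwa [Nat.card_prod, Nat.card_eq_fintype_card, Fintype.card_fin] at this
  calc 3 * Nat.card A * Module.finrank ℂ V ≤ Nat.card H * H.index := Nat.mul_le_mul hcard hidx
    _ = Nat.card G := H.card_mul_index

/-- A simple object is nonzero. -/
theorem simple_nonzero {G : Type} [Group G] (V : FDRep ℂ G) [Simple V] : ∃ v : V, v ≠ 0 := by
  by_contra h
  push Not at h
  apply id_nonzero V
  apply Action.Hom.ext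
  apply InducedCategory.hom_ext
  apply ModuleCat.hom_ext
  apply LinearMap.ext
  intro v
  rw [h v]
  simp

/-- Crude bound. -/
theorem finrank_le_card {G : Type} [Group G] [Finite G] (V : FDRep ℂ G) [Simple V] :
    Module.finrank ℂ V ≤ Nat.card G := by
  obtain ⟨v, hv⟩ := simple_nonzero V
  have := finrank_le_index V ⊥ v hv (by
    intro h hh
    rw [Subgroup.mem_bot] at hh
    exact ⟨1, by rw [hh, map_one, one_smul]; rfl⟩)
  rwa [Subgroup.index_bot] at this

end Pool.Agent.Helper199.RepDim
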